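import Pool.Agent.Lib.MP_11d477_gt.Ind.Push

/-! Closed surfaces, towers of branched double covers, pull-backs and approximate lifting. -/

set_option autoImplicit false

open Set Filter Topology Metric

namespace Pool.Agent.Lib.MP_11d477_gt.Ind

/-- A closed connected surface. -/
structure Surf where
  T : Type
  [m : MetricSpace T]
  [c : CompactSpace T]
  [k : ConnectedSpace T]
  ch : Ch T

instance (S : Surf) : MetricSpace S.T := S.m
instance (S : Surf) : CompactSpace S.T := S.c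
instance (S : Surf) : ConnectedSpace S.T := S.k

/-- A component of a compact space with charts. -/
def compS {P : Type} [MetricSpace P] [CompactSpace P] (h : Ch P) (p : P) : Surf :=
  @Surf.mk (connectedComponent p) inferInstance
    (isCompact_iff_compactSpace.1 isClosed_connectedComponent.isCompact)
    (isConnected_iff_connectedSpace.1 isConnected_connectedComponent)
    (h.sub (@isOpen_connectedComponent _ _ h.lc p))

/-- Finite towers of branched double covers whose branch values lie in `B`. -/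
inductive Arr (T : Surf) (B : Set T.T) : (S : Surf) → (S.T → T.T) → Prop
  | id : Arr T B T id
  | cons {S' S : Surf} {e : S'.T → S.T} {l : S.T → ℂ} {w : S'.T → ℂ} {g : S.T → T.T}
      (h : Pre e l w) (hg : Arr T B S g) (hZ : ∀ x, l x = 0 → g x ∈ B) : Arr T B S' (g ∘ e)

theorem Arr.mono {T S : Surf} {B B' : Set T.T} {g : S.T → T.T} (h : Arr T B S g) (hB : B ⊆ B') :
    Arr T B' S g := by
  induction h with
  | id => exact Arr.id
  | cons h _ hZ ih => exact Arr.cons h ih fun x hx => hB (hZ x hx)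

theorem Arr.comp {T0 T S : Surf} {B0 : Set T0.T} {B : Set T.T} {f : T.T → T0.T} {g : S.T → T.T}
    (hf : Arr T0 B0 T f) (hB : ∀ b ∈ B, f b ∈ B0) (h : Arr T B S g) : Arr T0 B0 S (f ∘ g) := by
  induction h with
  | id => exact hf
  | cons h _ hZ ih =>
    have := Arr.cons h ih fun x hx => hB _ (hZ x hx)
    exact this

/-- Arrows. -/
def IsArr {S T : Surf} (g : S.T → T.T) : Prop := ∃ B : Set T.T, B.Finite ∧ Arr T B S g

theorem IsArr.id (S : Surf) : IsArr (id : S.T → S.T) := ⟨∅, finite_empty, Arr.id⟩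

theorem IsArr.comp {T0 T S : Surf} {f : T.T → T0.T} {g : S.T → T.T} (hf : IsArr f) (hg : IsArr g) :
    IsArr (f ∘ g) := by
  obtain ⟨B0, h0, hf⟩ := hf
  obtain ⟨B, h1, hg⟩ := hg
  exact ⟨B0 ∪ f '' B, h0.union (h1.image f),
    (hf.mono subset_union_left).comp (fun b hb => Or.inr ⟨b, hb, rfl⟩) hg⟩

theorem Pre.arr {S T : Surf} {e : S.T → T.T} {l : T.T → ℂ} {w : S.T → ℂ} (h : Pre e l w) :
    IsArr e := by
  have := Arr.cons (B := {x | l x = 0}) h Arr.id fun _ hx => hx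
  exact ⟨_, h.finite, this⟩

theorem arr_homeo {S T : Surf} (h : S.T ≃ₜ T.T) (B : Set T.T) : Arr T B S h := by
  have := Arr.cons (B := B) (pre_homeo h) Arr.id fun _ hx => absurd hx one_ne_zero
  exact this

theorem IsArr.ind {P : ∀ S T : Surf, (S.T → T.T) → Prop} (h0 : ∀ T, P T T _root_.id)
    (h1 : ∀ (S' S T : Surf) (e : S'.T → S.T) (l : S.T → ℂ) (w : S'.T → ℂ) (g : S.T → T.T),
      Pre e l w → IsArr g → P S T g → P S' T (g ∘ e))
    {S T : Surf} {g : S.T → T.T} (h : IsArr g) : P S T g := by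
  obtain ⟨B, hB, h⟩ := h
  induction h with
  | id => exact h0 T
  | cons h hg _ ih => exact h1 _ _ _ _ _ _ _ h ⟨B, hB, hg⟩ ih

theorem IsArr.cont {S T : Surf} {g : S.T → T.T} (h : IsArr g) : Continuous g :=
  h.ind (P := fun _ _ g => Continuous g) (fun _ => continuous_id)
    fun _ _ _ _ _ _ _ h _ ih => ih.comp h.ce

theorem IsArr.surj {S T : Surf} {g : S.T → T.T} (h : IsArr g) : Function.Surjective g :=
  h.ind (P := fun _ _ g => Function.Surjective g) (fun _ => Function.surjective_id)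
    fun _ _ _ _ _ _ _ h _ ih => ih.comp h.surj

theorem square {S T T0 : Surf} {a : T.T → T0.T} {l : T0.T → ℂ} {w : T.T → ℂ} (h : Pre a l w)
    {e : S.T → T0.T} {l' : T0.T → ℂ} {w' : S.T → ℂ} (h' : Pre e l' w')
    (hd : ∀ x, l x = 0 → l' x ≠ 0) : ∃ (S' : Surf) (q : S'.T → S.T) (r : S'.T → T.T),
      (∃ u, Pre q (l ∘ e) u) ∧ IsArr r ∧ ∀ y, a (r y) = e (q y) := by
  have h1 := pre_pull h h'.ce fun s hs => h'.lh_e (hd _ hs)
  have h2 := pre_pull h' h.ce fun s hs => h.lh_e fun h3 => hd _ h3 hs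
  have hc : CompactSpace {p : S.T × T.T | e p.1 = a p.2} := isCompact_iff_compactSpace.1
    (isClosed_eq (h'.ce.comp continuous_fst) (h.ce.comp continuous_snd)).isCompact
  obtain ⟨t⟩ : Nonempty T.T := inferInstance
  obtain ⟨s, hs⟩ := h'.surj (a t)
  have hch := h1.ch S.ch
  have ho := @isOpen_connectedComponent _ _ hch.lc ⟨(s, t), hs⟩
  let sw : {p : S.T × T.T | e p.1 = a p.2} ≃ₜ {p : T.T × S.T | a p.1 = e p.2} :=
    (Homeomorph.prodComm S.T T.T).subtype fun p => eq_comm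
  have h3 : Pre (fun p : {p : S.T × T.T | e p.1 = a p.2} => p.1.2) (l' ∘ a)
      (fun p => w' p.1.1) :=
    { ce := continuous_snd.comp continuous_subtype_val
      cl := h2.cl
      cw := h'.cw.comp (continuous_fst.comp continuous_subtype_val)
      sq := fun p => h2.sq (sw p)
      inj := fun p p' a b => sw.injective (h2.inj (sw p) (sw p') a b)
      op := fun p N hN => by
        filter_upwards [h2.op (sw p) _ (sw.isOpenMap.image_mem_nhds hN)] with q hq hq2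
        obtain ⟨_, ⟨p', hp', rfl⟩, h4⟩ := hq hq2
        exact ⟨p', hp', h4⟩
      reg := h2.reg }
  exact ⟨compS hch ⟨(s, t), hs⟩, fun y => y.1.1.1, fun y => y.1.1.2, ⟨_, h1.sub ho⟩,
    Pre.arr (S := compS hch ⟨(s, t), hs⟩) (h3.sub ho), fun y => y.1.2.symm⟩

theorem pullback {S T T0 : Surf} {a : T.T → T0.T} {l : T0.T → ℂ} {w : T.T → ℂ} (h : Pre a l w)
    {B : Set T0.T} {g : S.T → T0.T} (hg : Arr T0 B S g) (hd : ∀ x, l x = 0 → x ∉ B) :
    ∃ (S' : Surf) (q : S'.T → S.T) (b : S'.T → T.T),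
      (∃ u, Pre q (l ∘ g) u) ∧ IsArr b ∧ ∀ y, a (b y) = g (q y) := by
  induction hg with
  | id => exact ⟨T, a, id, ⟨w, h⟩, IsArr.id T, fun _ => rfl⟩
  | cons he _ hZ ih =>
    obtain ⟨S1, q1, b1, ⟨u, h1⟩, h2, h3⟩ := ih
    obtain ⟨S', q, r, h4, h5, h6⟩ := square h1 he fun x hx h7 => hd _ hx (hZ x h7)
    exact ⟨S', q, b1 ∘ r, h4, h2.comp h5, fun y => by
      rw [Function.comp_apply, h3, h6]; rfl⟩

/-- Pointed approximate lifts of `g` through `a` exist. -/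
def Good {S T T0 : Surf} (a : T.T → T0.T) (g : S.T → T0.T) (ε δ : ℝ) : Prop :=
  ∀ z t, dist (a t) (g z) < δ → ∃ b : S.T → T.T, IsArr b ∧ (∀ y, dist (a (b y)) (g y) < ε) ∧ b z = t

theorem Good.refine {S' S T T0 : Surf} {a : T.T → T0.T} {g : S.T → T0.T} {ε δ : ℝ}
    (h : Good a g ε δ) {r : S'.T → S.T} (hr : IsArr r) : Good a (g ∘ r) ε δ := fun z t hz => by
  obtain ⟨b, h1, h2, h3⟩ := h (r z) t hz
  exact ⟨b ∘ r, h1.comp hr, fun y => h2 (r y), h3⟩

/-- Uniform pointed approximate amalgamation for `a`. -/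
def UA {T T0 : Surf} (a : T.T → T0.T) : Prop :=
  ∀ ε > 0, ∃ δ > 0, ∀ (S : Surf) (g : S.T → T0.T), IsArr g →
    ∃ (S' : Surf) (q : S'.T → S.T), IsArr q ∧ Good a (g ∘ q) ε δ

theorem Pre.ua {T T0 : Surf} {a : T.T → T0.T} {l : T0.T → ℂ} {w : T.T → ℂ} (h : Pre a l w) :
    UA a := fun ε hε => by
  obtain ⟨δ, hδ, h1⟩ := T0.ch.ulc (half_pos hε)
  refine ⟨δ / 2, half_pos hδ, fun S g ⟨B, hB, hg⟩ => ?_⟩
  obtain ⟨k, h2, h3⟩ := T0.ch.avoid hB h.finite (lt_min (half_pos hδ) (half_pos hε))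
  obtain ⟨S', q, b, ⟨u, h4⟩, h5, h6⟩ := pullback h
    ((arr_homeo k (k '' B)).comp (fun b hb => ⟨b, hb, rfl⟩) hg)
    (by rintro _ hx ⟨b, hb, rfl⟩; exact h3 b hb hx)
  refine ⟨S', q, h4.arr, fun z t hz => ?_⟩
  have h7 : ∀ y, dist (a (b y)) (g (q y)) < min (δ / 2) (ε / 2) := fun y => h6 y ▸ h2 _
  obtain ⟨O, o1, o2, o3, o4, o5⟩ := h1 (a (b z)) (a t) (by
    have := dist_triangle_right (a (b z)) (a t) (g (q z))
    have h8 : dist (a t) (g (q z)) < δ / 2 := hz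
    linarith [(lt_min_iff.1 (h7 z)).1])
  obtain ⟨ψ, p1, p2⟩ := h.join T.ch o1 o2 o3 o4
  refine ⟨ψ ∘ b, IsArr.comp ⟨∅, finite_empty, arr_homeo ψ ∅⟩ h5, fun y => ?_, p1⟩
  have h8 : dist (a (ψ (b y))) (a (b y)) < ε / 2 := by
    rcases p2 (b y) with h8 | h8
    · rw [h8, dist_self]
      exact half_pos hε
    · exact o5 _ h8.2 _ h8.1
  have := dist_triangle (a (ψ (b y))) (a (b y)) (g (q y))
  show dist (a (ψ (b y))) (g (q y)) < ε
  linarith [(lt_min_iff.1 (h7 y)).2]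

theorem UA.comp {T T1 T0 : Surf} {a1 : T1.T → T0.T} {a2 : T.T → T1.T} (c1 : Continuous a1)
    (c2 : Continuous a2) (u1 : UA a1) (u2 : UA a2) : UA (a1 ∘ a2) := fun ε hε => by
  obtain ⟨δ1, hδ1, h1⟩ := u1 _ (half_pos hε)
  obtain ⟨ε2, hε2, h2⟩ := Metric.uniformContinuous_iff.1
    (CompactSpace.uniformContinuous_of_continuous c1) _ (half_pos hε)
  obtain ⟨δ2, hδ2, h3⟩ := u2 _ hε2
  refine ⟨δ1 / 2, half_pos hδ1, fun S g hg => ?_⟩
  obtain ⟨S1, q1, hq1, h4⟩ := h1 S g hg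
  have hC : IsCompact {p : S1.T × T.T | dist (a1 (a2 p.2)) (g (q1 p.1)) ≤ δ1 / 2} :=
    (isClosed_le ((c1.comp (c2.comp continuous_snd)).dist
      (hg.cont.comp (hq1.cont.comp continuous_fst))) continuous_const).isCompact
  have h5 : ∀ p : {p : S1.T × T.T | dist (a1 (a2 p.2)) (g (q1 p.1)) ≤ δ1 / 2},
      ∃ b : S1.T → T1.T, IsArr b ∧ (∀ y, dist (a1 (b y)) (g (q1 y)) < ε / 2) ∧
        b p.1.1 = a2 p.1.2 := fun p => h4 p.1.1 (a2 p.1.2) (lt_of_le_of_lt p.2 (half_lt_self hδ1))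
  choose b b1 b2 b3 using h5
  obtain ⟨s, hs⟩ := hC.elim_nhds_subcover'
    (fun p hp => {p' | dist (a2 p'.2) (b ⟨p, hp⟩ p'.1) < δ2}) fun p hp =>
      (isOpen_lt ((c2.comp continuous_snd).dist ((b1 _).cont.comp continuous_fst))
        continuous_const).mem_nhds (by simpa [b3 ⟨p, hp⟩] using hδ2)
  have h6 : ∃ (S' : Surf) (q : S'.T → S1.T), IsArr q ∧ ∀ p ∈ s, Good a2 (b p ∘ q) ε2 δ2 := by
    clear hs
    classical
    induction s using Finset.induction_on with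
    | empty => exact ⟨S1, id, IsArr.id _, fun _ h => absurd h (Finset.notMem_empty _)⟩
    | insert p s _ ih =>
      obtain ⟨S2, q2, hq2, h6⟩ := ih
      obtain ⟨S3, q3, hq3, h7⟩ := h3 S2 _ ((b1 p).comp hq2)
      refine ⟨S3, q2 ∘ q3, hq2.comp hq3, fun p' hp' => ?_⟩
      rcases Finset.mem_insert.1 hp' with rfl | hp'
      · exact h7
      · exact (h6 p' hp').refine hq3
  obtain ⟨S', q, hq, h6⟩ := h6
  refine ⟨S', q1 ∘ q, hq1.comp hq, fun z t hz => ?_⟩
  obtain ⟨p, hp, h7⟩ := mem_iUnion₂.1 (hs (show (q z, t) ∈ _ from le_of_lt hz))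
  obtain ⟨c, c1, c2, c3⟩ := h6 p hp z t h7
  refine ⟨c, c1, fun y => ?_, c3⟩
  have := dist_triangle (a1 (a2 (c y))) (a1 (b p (q y))) (g (q1 (q y)))
  have h8 : dist (a1 (a2 (c y))) (a1 (b p (q y))) < ε / 2 := h2 (c2 y)
  show dist (a1 (a2 (c y))) (g (q1 (q y))) < ε
  linarith [b2 p (q y)]

theorem IsArr.ua {S T : Surf} {g : S.T → T.T} (h : IsArr g) : UA g :=
  h.ind (P := fun _ _ g => UA g) (fun T => (pre_homeo (Homeomorph.refl T.T)).ua)
    fun _ _ _ _ _ _ _ h hg ih => UA.comp hg.cont h.ce ih h.ua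

/-- Countably many test arrows are enough. -/
theorem exists_tests (T T0 : Surf) {ε : ℝ} (hε : 0 < ε) : ∃ (f : ℕ → T.T → T0.T) (δ : ℕ → ℝ),
    ∀ a : T.T → T0.T, IsArr a → ∃ i, (∀ t, dist (f i t) (a t) < min ε (δ i)) ∧
      ∀ (S : Surf) (g : S.T → T0.T), IsArr g →
        ∃ (S' : Surf) (q : S'.T → S.T), IsArr q ∧ Good (f i) (g ∘ q) ε (δ i) := by
  let A : Set C(T.T, T0.T) := {a | IsArr a}
  by_cases hA : A.Nonempty
  · choose δ hδ h1 using fun a : A => IsArr.ua a.2 ε hε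
    obtain ⟨s, hs, h2⟩ := TopologicalSpace.countable_cover_nhds (α := A)
      (f := fun a => ball a (min ε (δ a))) fun a => ball_mem_nhds _ (lt_min hε (hδ a))
    have hne : s.Nonempty := by
      obtain ⟨a, ha⟩ := hA
      obtain ⟨b, hb, -⟩ := mem_iUnion₂.1 (h2 ▸ mem_univ (⟨a, ha⟩ : A))
      exact ⟨b, hb⟩
    obtain ⟨u, rfl⟩ := hs.exists_eq_range hne
    refine ⟨fun i => (u i).1, fun i => δ (u i), fun a ha => ?_⟩
    obtain ⟨_, ⟨i, rfl⟩, hb⟩ := mem_iUnion₂.1 (h2 ▸ mem_univ (⟨⟨a, ha.cont⟩, ha⟩ : A))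
    refine ⟨i, fun t => ?_, h1 (u i)⟩
    rw [dist_comm]
    exact lt_of_le_of_lt (ContinuousMap.dist_apply_le_dist (f := ⟨a, ha.cont⟩) (g := (u i).1) t) hb
  · obtain ⟨x⟩ : Nonempty T0.T := inferInstance
    exact ⟨fun _ _ => x, fun _ => 0, fun a ha => absurd ⟨⟨a, ha.cont⟩, ha⟩ hA⟩

end Pool.Agent.Lib.MP_11d477_gt.Ind
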