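import Mathlib

/-! Local homeomorphisms at a point, surfaces, branched double covers. -/

set_option autoImplicit false

open Set Filter Topology

namespace Pool.Agent.Lib.MP_11d477_gt.Ind

/-- `f` is continuous, injective and open near `x`. -/
def LH {X Y : Type} [TopologicalSpace X] [TopologicalSpace Y] (f : X → Y) (x : X) : Prop :=
  ∃ U, IsOpen U ∧ x ∈ U ∧ ContinuousOn f U ∧ InjOn f U ∧ ∀ y ∈ U, 𝓝 (f y) ≤ map f (𝓝 y)

section
variable {X Y Z : Type} [TopologicalSpace X] [TopologicalSpace Y] [TopologicalSpace Z]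

theorem LH.comp {f : X → Y} {g : Y → Z} {x : X} (hg : LH g (f x)) (hf : LH f x) :
    LH (g ∘ f) x := by
  obtain ⟨V, hV, hxV, cg, ig, og⟩ := hg
  obtain ⟨U, hU, hxU, cf, jf, of⟩ := hf
  refine ⟨U ∩ f ⁻¹' V, cf.isOpen_inter_preimage hU hV, ⟨hxU, hxV⟩,
    cg.comp (cf.mono inter_subset_left) fun y hy => hy.2,
    ig.comp (jf.mono inter_subset_left) fun y hy => hy.2, fun y hy => ?_⟩
  rw [← Filter.map_map]
  exact (og _ hy.2).trans (map_mono (of _ hy.1))

theorem LH.congr {f g : X → Y} {x : X} (hf : LH f x) (h : f =ᶠ[𝓝 x] g) : LH g x := by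
  obtain ⟨U, hU, hxU, cf, jf, of⟩ := hf
  obtain ⟨W, hW, hWo, hxW⟩ := mem_nhds_iff.1 h
  have e : EqOn f g (U ∩ W) := fun y hy => hW hy.2
  refine ⟨U ∩ W, hU.inter hWo, ⟨hxU, hxW⟩, (cf.mono inter_subset_left).congr e.symm,
    (jf.mono inter_subset_left).congr e, fun y hy => ?_⟩
  have e2 : f =ᶠ[𝓝 y] g := mem_of_superset (hWo.mem_nhds hy.2) hW
  rw [← e hy, ← map_congr e2]
  exact of _ hy.1

theorem lh_of_openEmb {f : X → Y} (h : IsOpenEmbedding f) (x : X) : LH f x :=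
  ⟨univ, isOpen_univ, mem_univ _, h.continuous.continuousOn, h.injective.injOn,
    fun y _ => (h.map_nhds_eq y).ge⟩

theorem lh_of_oph (φ : OpenPartialHomeomorph X Y) {x : X} (hx : x ∈ φ.source) : LH φ x :=
  ⟨φ.source, φ.open_source, hx, φ.continuousOn, φ.injOn, fun _ hy => (φ.map_nhds_eq hy).ge⟩

theorem LH.oph {f : X → Y} {x : X} (h : LH f x) :
    ∃ φ : OpenPartialHomeomorph X Y, x ∈ φ.source := by
  obtain ⟨U, hU, hxU, cf, jf, of⟩ := h
  have : Nonempty X := ⟨x⟩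
  refine ⟨OpenPartialHomeomorph.ofContinuousOpenRestrict (jf.toPartialEquiv f U) cf ?_ hU, hxU⟩
  refine isOpenMap_iff_nhds_le.2 fun a => ?_
  have : map (U.domRestrict f) (𝓝 a) = map f (𝓝 a.1) := by
    rw [← hU.isOpenEmbedding_subtypeVal.map_nhds_eq a, Filter.map_map]
    rfl
  exact (of _ a.2).trans this.ge

end

/-- Every point has a chart to the plane. -/
def Ch (T : Type) [TopologicalSpace T] : Prop := ∀ x : T, ∃ f : T → ℂ, LH f x

theorem Ch.lc {T : Type} [TopologicalSpace T] (h : Ch T) : LocallyConnectedSpace T := by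
  choose f hf using h
  choose φ hφ using fun x => (hf x).oph
  let _ : ChartedSpace ℂ T :=
    { atlas := range φ, chartAt := φ, mem_chart_source := hφ, chart_mem_atlas := fun x => ⟨x, rfl⟩ }
  exact ChartedSpace.locallyConnectedSpace ℂ T

theorem Ch.infinite {T : Type} [TopologicalSpace T] (h : Ch T) {x : T} {V : Set T}
    (hV : V ∈ 𝓝 x) : V.Infinite := by
  obtain ⟨f, U, -, hxU, -, -, of⟩ := h x
  exact Infinite.of_image f (infinite_of_mem_nhds (f x) (of x hxU (image_mem_map hV)))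

theorem Ch.sub {T : Type} [TopologicalSpace T] (h : Ch T) {C : Set T} (hC : IsOpen C) : Ch C :=
  fun x => by
    obtain ⟨f, hf⟩ := h x.1
    exact ⟨f ∘ Subtype.val, hf.comp (lh_of_openEmb hC.isOpenEmbedding_subtypeVal x)⟩

/-- `e` is an open piece of the branched double cover `w ^ 2 = l x`; the zeros of `l` are
regular. -/
structure Pre {T T0 : Type} [TopologicalSpace T] [TopologicalSpace T0] (e : T → T0) (l : T0 → ℂ)
    (w : T → ℂ) : Prop where
  ce : Continuous e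
  cl : Continuous l
  cw : Continuous w
  sq : ∀ t, w t ^ 2 = l (e t)
  inj : ∀ t t', e t = e t' → w t = w t' → t = t'
  op : ∀ t, ∀ N ∈ 𝓝 t, ∀ᶠ p : T0 × ℂ in 𝓝 (e t, w t),
    p.2 ^ 2 = l p.1 → ∃ t' ∈ N, e t' = p.1 ∧ w t' = p.2
  reg : ∀ x, l x = 0 → LH l x

namespace Pre
variable {T T0 : Type} [TopologicalSpace T] [TopologicalSpace T0] {e : T → T0} {l : T0 → ℂ}
  {w : T → ℂ}

theorem box (h : Pre e l w) (t : T) {N : Set T} (hN : N ∈ 𝓝 t) : ∃ V ∈ 𝓝 (e t), ∃ W ∈ 𝓝 (w t),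
    ∀ x ∈ V, ∀ u ∈ W, u ^ 2 = l x → ∃ t' ∈ N, e t' = x ∧ w t' = u := by
  obtain ⟨V, hV, W, hW, hs⟩ := mem_nhds_prod_iff.1 (h.op t N hN)
  exact ⟨V, hV, W, hW, fun x hx u hu => hs (mk_mem_prod hx hu)⟩

theorem nhds_le (h : Pre e l w) (t : T) : 𝓝 (e t) ≤ map e (𝓝 t) := by
  intro s hs
  obtain ⟨V, hV, W, hW, hb⟩ := h.box t hs
  have h1 : (fun u : ℂ => u ^ 2) '' W ∈ 𝓝 (l (e t)) := by
    rw [← h.sq t]
    exact (Complex.isOpenQuotientMap_pow 2).isOpenMap.image_mem_nhds hW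
  filter_upwards [hV, h.cl.continuousAt h1] with x hx hx2
  obtain ⟨u, hu, hu2⟩ := hx2
  obtain ⟨t', ht', rfl, -⟩ := hb x hx u hu hu2
  exact ht'

theorem isOpenMap (h : Pre e l w) : IsOpenMap e := isOpenMap_iff_nhds_le.2 h.nhds_le

theorem pm (h : Pre e l w) {t t' : T} (he : e t = e t') : w t' = w t ∨ w t' = -w t :=
  sq_eq_sq_iff_eq_or_eq_neg.1 (by rw [h.sq, h.sq, he])

theorem lh_e (h : Pre e l w) {t : T} (ht : l (e t) ≠ 0) : LH e t := by
  have h0 : w t ≠ 0 := fun h0 => ht (by rw [← h.sq, h0]; simp)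
  refine ⟨{s | ‖w s - w t‖ < ‖w t‖}, isOpen_lt (h.cw.sub continuous_const).norm continuous_const,
    by simpa using h0, h.ce.continuousOn, fun a ha b hb hab => ?_, fun y _ => h.nhds_le y⟩
  rcases h.pm hab with h1 | h1
  · exact h.inj _ _ hab h1.symm
  · exfalso
    simp only [mem_ofPred_eq] at ha hb
    have h2 := norm_add_le (w a - w t) (w b - w t)
    rw [h1, show w a - w t + (-w a - w t) = (-2) * w t by ring, norm_mul] at h2
    rw [h1] at hb
    simp at h2
    linarith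

theorem lh_w (h : Pre e l w) {t : T} (ht : l (e t) = 0) : LH w t := by
  obtain ⟨U, hU, hxU, -, jl, ol⟩ := h.reg _ ht
  refine ⟨e ⁻¹' U, hU.preimage h.ce, hxU, h.cw.continuousOn, fun a ha b hb hab =>
    h.inj _ _ (jl ha hb (by rw [← h.sq, ← h.sq, hab])) hab, fun y hy s hs => ?_⟩
  obtain ⟨V, hV, W, hW, hb⟩ := h.box y hs
  have h1 : l '' V ∈ 𝓝 (w y ^ 2) := by
    rw [h.sq]
    exact ol _ hy (image_mem_map hV)
  filter_upwards [hW, (continuous_pow 2).continuousAt h1] with u hu hu2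
  obtain ⟨x, hx, hx2⟩ := hu2
  obtain ⟨t', ht', -, rfl⟩ := hb x hx u hu hx2.symm
  exact ht'

theorem ch (h : Pre e l w) (h0 : Ch T0) : Ch T := fun t => by
  by_cases ht : l (e t) = 0
  · exact ⟨w, h.lh_w ht⟩
  · obtain ⟨f, hf⟩ := h0 (e t)
    exact ⟨f ∘ e, hf.comp (h.lh_e ht)⟩

theorem finite (h : Pre e l w) [CompactSpace T0] : {x | l x = 0}.Finite := by
  have hc : IsCompact {x | l x = 0} := (isClosed_eq h.cl continuous_const).isCompact
  choose! U hU hx _ hj _ using h.reg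
  obtain ⟨s, hs, hcov⟩ := hc.elim_nhds_subcover U fun x hx0 => (hU x hx0).mem_nhds (hx x hx0)
  refine s.finite_toSet.subset fun z hz => ?_
  obtain ⟨x, hxs, hzx⟩ := mem_iUnion₂.1 (hcov hz)
  rw [hj x (hs x hxs) hzx (hx x (hs x hxs)) (hz.trans (hs x hxs).symm)]
  exact hxs

theorem sub (h : Pre e l w) {C : Set T} (hC : IsOpen C) :
    Pre (fun t : C => e t.1) l (fun t : C => w t.1) where
  ce := h.ce.comp continuous_subtype_val
  cl := h.cl
  cw := h.cw.comp continuous_subtype_val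
  sq t := h.sq t.1
  inj t t' h1 h2 := Subtype.ext (h.inj _ _ h1 h2)
  op t N hN := by
    filter_upwards [h.op t.1 _ (hC.isOpenMap_subtype_val.image_mem_nhds hN)] with p hp hp2
    obtain ⟨_, ⟨t', ht', rfl⟩, h1⟩ := hp hp2
    exact ⟨t', ht', h1⟩
  reg := h.reg

theorem surj (h : Pre e l w) [CompactSpace T] [Nonempty T] [T2Space T0] [PreconnectedSpace T0] :
    Function.Surjective e := by
  rw [← range_eq_univ]
  exact IsClopen.eq_univ ⟨(isCompact_range h.ce).isClosed, h.isOpenMap.isOpen_range⟩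
    (range_nonempty e)

theorem opp (h : Pre e l w) [CompactSpace T] [PreconnectedSpace T] [T2Space T0]
    (h0 : ∃ t t', e t' = e t ∧ w t' = -w t) (t : T) : ∃ t', e t' = e t ∧ w t' = -w t := by
  have hc : Continuous fun t => (e t, -w t) := h.ce.prodMk h.cw.neg
  have : IsClopen {t | ∃ t', e t' = e t ∧ w t' = -w t} := by
    constructor
    · have := ((isCompact_range (h.ce.prodMk h.cw)).isClosed).preimage hc
      convert this using 1
      ext t
      simp [Prod.ext_iff]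
    · refine isOpen_iff_mem_nhds.2 fun t ⟨t', h1, h2⟩ => ?_
      have h3 := h.op t' univ univ_mem
      rw [h1, h2] at h3
      filter_upwards [hc.continuousAt h3] with s hs
      obtain ⟨s', -, h4⟩ := hs (by simp [h.sq])
      exact ⟨s', h4⟩
  have h5 := this.eq_univ h0
  exact (h5 ▸ mem_univ t : t ∈ {t | ∃ t', e t' = e t ∧ w t' = -w t})

theorem invol (h : Pre e l w) [CompactSpace T] [PreconnectedSpace T] [T2Space T0] :
    ∃ σ : T ≃ₜ T, (∀ t, e (σ t) = e t) ∧ (∀ t, σ (σ t) = t) ∧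
      ∀ t t', e t = e t' → t' = t ∨ t' = σ t := by
  by_cases h0 : ∃ t t', e t' = e t ∧ w t' = -w t
  · choose s h1 h2 using h.opp h0
    have hi : IsInducing fun t => (e t, w t) :=
      ((h.ce.prodMk h.cw).isClosedEmbedding fun a b hab =>
        h.inj _ _ (congrArg Prod.fst hab) (congrArg Prod.snd hab)).isInducing
    have hs : Continuous s := by
      refine hi.continuous_iff.2 ?_
      have : ((fun t => (e t, w t)) ∘ s) = fun t => (e t, -w t) := by
        ext t <;> simp [h1, h2]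
      rw [this]
      exact h.ce.prodMk h.cw.neg
    have hss : ∀ t, s (s t) = t := fun t =>
      h.inj _ _ (by rw [h1, h1]) (by rw [h2, h2, neg_neg])
    refine ⟨⟨⟨s, s, hss, hss⟩, hs, hs⟩, h1, hss, fun t t' he => ?_⟩
    rcases h.pm he with h3 | h3
    · exact Or.inl (h.inj _ _ he.symm h3)
    · exact Or.inr (h.inj _ _ (he.symm.trans (h1 t).symm) (h3.trans (h2 t).symm))
  · refine ⟨Homeomorph.refl T, fun _ => rfl, fun _ => rfl, fun t t' he => Or.inl ?_⟩
    rcases h.pm he with h3 | h3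
    · exact h.inj _ _ he.symm h3
    · exact absurd ⟨t, t', he.symm, h3⟩ h0

end Pre

theorem pre_homeo {T T0 : Type} [TopologicalSpace T] [TopologicalSpace T0] (h : T ≃ₜ T0) :
    Pre h (fun _ => 1) (fun _ => 1) where
  ce := h.continuous
  cl := continuous_const
  cw := continuous_const
  sq _ := by simp
  inj _ _ h1 _ := h.injective h1
  op t N hN := by
    have h1 : ∀ᶠ p : T0 × ℂ in 𝓝 (h t, 1), p.1 ∈ h '' N :=
      continuous_fst.continuousAt (h.isOpenMap.image_mem_nhds hN)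
    have h2 : ∀ᶠ p : T0 × ℂ in 𝓝 (h t, 1), p.2 ≠ -1 :=
      continuous_snd.continuousAt.eventually_ne (by norm_num)
    filter_upwards [h1, h2] with p ⟨t', ht', h3⟩ h4 h5
    exact ⟨t', ht', h3, (((sq_eq_sq_iff_eq_or_eq_neg (b := (1 : ℂ))).1
      (by simpa using h5)).resolve_right h4).symm⟩
  reg _ h := absurd h one_ne_zero

theorem pre_model {T0 : Type} [TopologicalSpace T0] {l : T0 → ℂ} (cl : Continuous l)
    (reg : ∀ x, l x = 0 → LH l x) :
    Pre (fun p : {p : T0 × ℂ | p.2 ^ 2 = l p.1} => p.1.1) l (fun p => p.1.2) where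
  ce := continuous_fst.comp continuous_subtype_val
  cl := cl
  cw := continuous_snd.comp continuous_subtype_val
  sq p := p.2
  inj _ _ h1 h2 := Subtype.ext (Prod.ext h1 h2)
  op t N hN := by
    obtain ⟨M, hM, hs⟩ := (mem_nhds_subtype _ t N).1 hN
    filter_upwards [hM] with p hp hp2
    exact ⟨⟨p, hp2⟩, hs hp, rfl, rfl⟩
  reg := reg

theorem pre_pull {S T T0 : Type} [TopologicalSpace S] [TopologicalSpace T] [TopologicalSpace T0]
    {a : T → T0} {l : T0 → ℂ} {w : T → ℂ} (h : Pre a l w) {e : S → T0} (ce : Continuous e)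
    (he : ∀ s, l (e s) = 0 → LH e s) :
    Pre (fun p : {p : S × T | e p.1 = a p.2} => p.1.1) (l ∘ e) (fun p => w p.1.2) where
  ce := continuous_fst.comp continuous_subtype_val
  cl := h.cl.comp ce
  cw := h.cw.comp (continuous_snd.comp continuous_subtype_val)
  sq p := by
    rw [h.sq]
    exact congrArg l p.2.symm
  inj p p' h1 h2 := Subtype.ext (Prod.ext h1 (h.inj _ _ (by
    rw [← show e p.1.1 = a p.1.2 from p.2, ← show e p'.1.1 = a p'.1.2 from p'.2, h1]) h2))
  op p N hN := by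
    obtain ⟨M, hM, hs⟩ := (mem_nhds_subtype _ p N).1 hN
    obtain ⟨N1, h1, N2, h2, h3⟩ := mem_nhds_prod_iff.1 hM
    have h4 := h.op p.1.2 N2 h2
    rw [← show e p.1.1 = a p.1.2 from p.2] at h4
    have h5 : ContinuousAt (fun q : S × ℂ => (e q.1, q.2)) (p.1.1, w p.1.2) :=
      ((ce.comp continuous_fst).prodMk continuous_snd).continuousAt
    have h6 : ∀ᶠ q : S × ℂ in 𝓝 (p.1.1, w p.1.2), q.1 ∈ N1 := continuous_fst.continuousAt h1
    filter_upwards [h5 h4, h6] with q hq hq1 hq2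
    obtain ⟨t', ht', h7, h8⟩ := hq hq2
    exact ⟨⟨(q.1, t'), h7.symm⟩, hs (h3 (mk_mem_prod hq1 ht')), rfl, h8⟩
  reg s hs := (h.reg _ hs).comp (he s hs)

end Pool.Agent.Lib.MP_11d477_gt.Ind
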