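import Pool.Agent.Lib.MP_11d477_gt.Ind.Stage

/-! Towers of surfaces, their inverse limits, and the generic tower. -/

set_option autoImplicit false

open Set Filter Topology Metric

namespace Pool.Agent.Lib.MP_11d477_gt.Ind

/-- An inverse sequence of surfaces and arrows. -/
structure Tower where
  S : ℕ → Surf
  p : ∀ n, (S (n + 1)).T → (S n).T
  a : ∀ n, IsArr (p n)

namespace Tower
variable (τ : Tower)

/-- The inverse limit. -/
def X : Type := {x : ∀ n, (τ.S n).T // ∀ n, τ.p n (x (n + 1)) = x n}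

noncomputable instance : MetricSpace τ.X :=
  @TopologicalSpace.metrizableSpaceMetric {x : ∀ n, (τ.S n).T // ∀ n, τ.p n (x (n + 1)) = x n} _
    IsEmbedding.subtypeVal.metrizableSpace

theorem closed_lt (k : ℕ) : IsClosed {x : ∀ n, (τ.S n).T | ∀ n < k, τ.p n (x (n + 1)) = x n} := by
  simp only [ofPred_forall]
  exact isClosed_iInter fun n => isClosed_iInter fun _ =>
    isClosed_eq ((τ.a n).cont.comp (continuous_apply _)) (continuous_apply _)

instance : CompactSpace τ.X := by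
  have : IsClosed {x : ∀ n, (τ.S n).T | ∀ n, τ.p n (x (n + 1)) = x n} := by
    simp only [ofPred_forall]
    exact isClosed_iInter fun n =>
      isClosed_eq ((τ.a n).cont.comp (continuous_apply _)) (continuous_apply _)
  exact isCompact_iff_compactSpace.1 this.isCompact

theorem cont (n : ℕ) : Continuous fun x : τ.X => x.1 n :=
  (continuous_apply n).comp continuous_subtype_val

theorem bond {n m : ℕ} (h : n ≤ m) : ∃ P : (τ.S m).T → (τ.S n).T, IsArr P ∧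
    ∀ x : τ.X, P (x.1 m) = x.1 n := by
  induction m, h using Nat.le_induction with
  | base => exact ⟨id, IsArr.id _, fun _ => rfl⟩
  | succ m _ ih =>
    obtain ⟨P, h1, h2⟩ := ih
    exact ⟨P ∘ τ.p m, h1.comp (τ.a m), fun x => by rw [Function.comp_apply, x.2, h2]⟩

theorem surj (n : ℕ) (y : (τ.S n).T) : ∃ x : τ.X, x.1 n = y := by
  have h1 : ∀ m (y : (τ.S m).T), ∃ x : ∀ n, (τ.S n).T, x m = y ∧
      ∀ i < m, τ.p i (x (i + 1)) = x i := fun m => by
    induction m with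
    | zero => exact fun y => ⟨Function.update (fun _ => Classical.arbitrary _) 0 y, by simp, by simp⟩
    | succ m ih =>
      intro y
      obtain ⟨x, h1, h2⟩ := ih (τ.p m y)
      refine ⟨Function.update x (m + 1) y, by simp, fun i hi => ?_⟩
      rw [Function.update_of_ne (show i ≠ m + 1 by omega)]
      rcases Nat.lt_succ_iff_lt_or_eq.1 hi with hi | rfl
      · rw [Function.update_of_ne (by omega), h2 i hi]
      · rw [Function.update_self, h1]
  have h2 : ∀ k, ∃ x : ∀ n, (τ.S n).T, x n = y ∧ ∀ i < n + k, τ.p i (x (i + 1)) = x i := fun k => by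
    induction k with
    | zero => exact h1 n y
    | succ k ih =>
      obtain ⟨x, h1, h2⟩ := ih
      obtain ⟨z, hz⟩ := (τ.a (n + k)).surj (x (n + k))
      refine ⟨Function.update x (n + k + 1) z, by rw [Function.update_of_ne (by omega), h1],
        fun i hi => ?_⟩
      rw [Function.update_of_ne (show i ≠ n + k + 1 by omega)]
      rcases (show i < n + k ∨ i = n + k by omega) with hi | rfl
      · rw [Function.update_of_ne (by omega), h2 i hi]
      · rw [Function.update_self, hz]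
  have h3 : ∀ k, IsClosed {x : ∀ n, (τ.S n).T | x n = y ∧ ∀ i < n + k, τ.p i (x (i + 1)) = x i} :=
    fun k => (isClosed_eq (continuous_apply n) continuous_const).inter (τ.closed_lt _)
  obtain ⟨x, hx⟩ := IsCompact.nonempty_iInter_of_sequence_nonempty_isCompact_isClosed
    (fun k => {x : ∀ n, (τ.S n).T | x n = y ∧ ∀ i < n + k, τ.p i (x (i + 1)) = x i})
    (fun k x hx => ⟨hx.1, fun i hi => hx.2 i (by omega)⟩) h2 (h3 0).isCompact h3
  rw [mem_iInter] at hx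
  exact ⟨⟨x, fun i => (hx (i + 1)).2 i (by omega)⟩, (hx 0).1⟩

theorem sep {Y : Type} [TopologicalSpace Y] [CompactSpace Y] {K : Set Y} (hK : IsClosed K)
    {a b c : Y → τ.X} (ha : Continuous a) (hb : Continuous b) (hc : Continuous c)
    (h : ∀ y ∈ K, a y = b y → a y ≠ c y) :
    ∃ N, ∀ n, N ≤ n → ∀ y ∈ K, (a y).1 n = (b y).1 n → (a y).1 n ≠ (c y).1 n := by
  have h1 : ∀ n, IsClosed {y | y ∈ K ∧ (a y).1 n = (b y).1 n ∧ (a y).1 n = (c y).1 n} := fun n =>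
    hK.inter ((isClosed_eq ((τ.cont n).comp ha) ((τ.cont n).comp hb)).inter
      (isClosed_eq ((τ.cont n).comp ha) ((τ.cont n).comp hc)))
  have h2 : ∃ N, ¬ {y | y ∈ K ∧ (a y).1 N = (b y).1 N ∧ (a y).1 N = (c y).1 N}.Nonempty := by
    by_contra h2
    push Not at h2
    obtain ⟨y, hy⟩ := IsCompact.nonempty_iInter_of_sequence_nonempty_isCompact_isClosed
      (fun n => {y | y ∈ K ∧ (a y).1 n = (b y).1 n ∧ (a y).1 n = (c y).1 n})
      (fun n y hy => ⟨hy.1, by rw [← (a y).2, ← (b y).2, hy.2.1],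
        by rw [← (a y).2, ← (c y).2, hy.2.2]⟩) h2 (h1 0).isCompact h1
    rw [mem_iInter] at hy
    exact h y (hy 0).1 (Subtype.ext (funext fun n => (hy n).2.1))
      (Subtype.ext (funext fun n => (hy n).2.2))
  obtain ⟨N, hN⟩ := h2
  refine ⟨N, fun n hn y hy h3 h4 => hN ⟨y, hy, ?_⟩⟩
  obtain ⟨P, -, hP⟩ := τ.bond hn
  rw [← hP, ← hP, ← hP, ← h3, ← h4]
  exact ⟨rfl, rfl⟩

theorem emap {ε : ℝ} (hε : 0 < ε) : ∃ N, ∀ n, N ≤ n → ∃ η > 0, ∀ u v : τ.X,
    dist (u.1 n) (v.1 n) ≤ η → dist u v < ε := by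
  have hK : IsClosed {p : τ.X × τ.X | ε ≤ dist p.1 p.2} := isClosed_le continuous_const (by fun_prop)
  obtain ⟨N, hN⟩ := τ.sep hK continuous_fst continuous_fst continuous_snd fun p hp _ h => by
    rw [mem_ofPred_eq, h, dist_self] at hp
    linarith
  refine ⟨N, fun n hn => ?_⟩
  obtain ⟨η, hη, h1⟩ := hK.isCompact.exists_forall_le' (a := (0 : ℝ))
    (((τ.cont n).comp continuous_fst).dist ((τ.cont n).comp continuous_snd)).continuousOn
    fun p hp => dist_pos.2 (hN n hn p hp rfl)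
  refine ⟨η / 2, half_pos hη, fun u v h => lt_of_not_ge fun h2 => ?_⟩
  have : η ≤ dist (u.1 n) (v.1 n) := h1 (u, v) h2
  linarith

instance : ConnectedSpace τ.X := by
  obtain ⟨y⟩ : Nonempty (τ.S 0).T := inferInstance
  obtain ⟨x, -⟩ := τ.surj 0 y
  have : Nonempty τ.X := ⟨x⟩
  have : PreconnectedSpace τ.X := ⟨isPreconnected_closed_iff.2 fun A B hA hB hc h1 h2 => by
    by_contra h3
    obtain ⟨N, hN⟩ := τ.sep (hA.prod hB) continuous_fst continuous_fst continuous_snd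
      fun p hp _ h => h3 ⟨p.1, trivial, hp.1, h ▸ hp.2⟩
    obtain ⟨_, -, ⟨u, hu, rfl⟩, v, hv, h4⟩ := isPreconnected_closed_iff.1 isPreconnected_univ _ _
      (hA.isCompact.image (τ.cont N)).isClosed (hB.isCompact.image (τ.cont N)).isClosed
      (fun z _ => by
        obtain ⟨w, rfl⟩ := τ.surj N z
        exact (hc (mem_univ w)).imp (mem_image_of_mem _) (mem_image_of_mem _))
      (by obtain ⟨u, -, hu⟩ := h1; exact ⟨_, trivial, u, hu, rfl⟩)
      (by obtain ⟨u, -, hu⟩ := h2; exact ⟨_, trivial, u, hu, rfl⟩)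
    exact hN N le_rfl (u, v) ⟨hu, hv⟩ rfl h4.symm⟩
  exact ⟨‹_›⟩

/-- Pointed approximate lifting in the limit. -/
def Lift : Prop := ∀ (m n : ℕ) (f : (τ.S m).T → (τ.S n).T), IsArr f → ∀ ε > 0, ∃ k, ∀ x y : τ.X,
  f (y.1 m) = x.1 n → ∃ g : (τ.S k).T → (τ.S m).T, IsArr g ∧ g (x.1 k) = y.1 m ∧
    ∀ u : τ.X, dist (f (g (u.1 k))) (u.1 n) < ε

/-- Splitting off every open set. -/
def Spl : Prop := ∀ (n : ℕ) (W : Set (τ.S n).T), IsOpen W → W.Nonempty → ∃ r : τ.X → ℂ,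
  Continuous r ∧ (∀ u : τ.X, u.1 n ∉ W → r u = 1 ∨ r u = -1) ∧
    ∀ y, y ∉ W → ∃ u u' : τ.X, u.1 n = y ∧ u'.1 n = y ∧ r u ≠ r u'

end Tower

theorem exists_opens (T : Surf) : ∃ u : ℕ → Set T.T, (∀ i, IsOpen (u i) ∧ (u i).Nonempty) ∧
    ∀ W, IsOpen W → W.Nonempty → ∃ i, u i ⊆ W := by
  obtain ⟨b, h1, h2, h3⟩ := TopologicalSpace.exists_countable_basis T.T
  have h4 : ∀ W, IsOpen W → W.Nonempty → ∃ V ∈ b, V ⊆ W := fun W hW ⟨x, hx⟩ => by
    obtain ⟨V, h4, -, h5⟩ := h3.exists_subset_of_mem_open hx hW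
    exact ⟨V, h4, h5⟩
  obtain ⟨V, hV, -⟩ := h4 univ isOpen_univ univ_nonempty
  obtain ⟨u, rfl⟩ := h1.exists_eq_range ⟨V, hV⟩
  refine ⟨u, fun i => ⟨h3.isOpen ⟨i, rfl⟩, nonempty_iff_ne_empty.2 fun h => h2 ⟨i, h⟩⟩,
    fun W hW hne => ?_⟩
  obtain ⟨_, ⟨i, rfl⟩, h5⟩ := h4 W hW hne
  exact ⟨i, h5⟩

/-- A stage of the tower with its maps to the earlier stages. -/
structure St where
  S : Surf
  h : ℕ → Σ T : Surf, (S.T → T.T)
  a : ∀ n, IsArr (h n).2

theorem exists_tower (S0 : Surf) : ∃ τ : Tower, τ.S 0 = S0 ∧ τ.Lift ∧ τ.Spl := by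
  choose tf tδ ht using fun (T T0 : Surf) (j : ℕ) =>
    exists_tests T T0 (ε := 1 / ((j : ℝ) + 1)) Nat.one_div_pos_of_nat
  choose ub u1 u2 using exists_opens
  let Task : ∀ S' S : Surf, (S'.T → S.T) → (Σ T : Surf, (S.T → T.T)) → (Σ T : Surf, (S.T → T.T)) →
      ℕ → ℕ → Prop := fun S' S q A C j i =>
    ((∀ (S : Surf) (g : S.T → C.1.T), IsArr g → ∃ (S' : Surf) (q : S'.T → S.T), IsArr q ∧
      Good (tf A.1 C.1 j i) (g ∘ q) (1 / ((j : ℝ) + 1)) (tδ A.1 C.1 j i)) →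
      Good (tf A.1 C.1 j i) (C.2 ∘ q) (1 / ((j : ℝ) + 1)) (tδ A.1 C.1 j i)) ∧
    Split q (C.2 ⁻¹' ub C.1 i)
  have h1 : ∀ (σ : St) (s : ℕ), ∃ (S' : Surf) (q : S'.T → σ.S.T), IsArr q ∧ Task S' σ.S q
      (σ.h s.unpair.1) (σ.h s.unpair.2.unpair.1) s.unpair.2.unpair.2.unpair.1
      s.unpair.2.unpair.2.unpair.2 := fun σ s => by
    have hC := σ.a s.unpair.2.unpair.1
    generalize σ.h s.unpair.1 = A
    generalize σ.h s.unpair.2.unpair.1 = C at hC ⊢
    generalize s.unpair.2.unpair.2.unpair.1 = j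
    generalize s.unpair.2.unpair.2.unpair.2 = i
    obtain ⟨S1, q1, a1, s1⟩ := exists_split σ.S ((u1 C.1 i).1.preimage hC.cont)
      ((u1 C.1 i).2.preimage hC.surj)
    by_cases h : ∀ (S : Surf) (g : S.T → C.1.T), IsArr g → ∃ (S' : Surf) (q : S'.T → S.T),
      IsArr q ∧ Good (tf A.1 C.1 j i) (g ∘ q) (1 / ((j : ℝ) + 1)) (tδ A.1 C.1 j i)
    · obtain ⟨S2, q2, a2, g2⟩ := h S1 _ (hC.comp a1)
      exact ⟨S2, q1 ∘ q2, a1.comp a2, fun _ => g2, s1.refine a2⟩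
    · exact ⟨S1, q1, a1, fun h2 => absurd h2 h, s1⟩
  choose nS nq na nt using h1
  let nx : St → ℕ → St := fun σ s => ⟨nS σ s, fun k => if k = s + 1 then ⟨nS σ s, id⟩ else
    ⟨(σ.h k).1, (σ.h k).2 ∘ nq σ s⟩, fun k => by
      by_cases h : k = s + 1
      · rw [if_pos h]
        exact IsArr.id _
      · rw [if_neg h]
        exact (σ.a k).comp (na σ s)⟩
  let σ : ℕ → St := fun n => Nat.rec ⟨S0, fun _ => ⟨S0, id⟩, fun _ => IsArr.id _⟩
    (fun s t => nx t s) n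
  let τ : Tower := ⟨fun n => (σ n).S, fun n => nq (σ n) n, fun n => na (σ n) n⟩
  have hist : ∀ m n, n ≤ m → ∃ P : (τ.S m).T → (τ.S n).T, (σ m).h n = ⟨τ.S n, P⟩ ∧
      ∀ x : τ.X, P (x.1 m) = x.1 n := fun m => by
    induction m with
    | zero =>
      intro n hn
      obtain rfl := Nat.le_zero.1 hn
      exact ⟨id, rfl, fun _ => rfl⟩
    | succ m ih =>
      intro n hn
      rcases Nat.le_succ_iff.1 hn with hn | rfl
      · obtain ⟨P, h1, h2⟩ := ih n hn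
        refine ⟨P ∘ τ.p m, ?_, fun x => by rw [Function.comp_apply, x.2, h2]⟩
        refine (if_neg (show n ≠ m + 1 by omega)).trans ?_
        show (⟨((σ m).h n).1, ((σ m).h n).2 ∘ nq (σ m) m⟩ : Σ T : Surf, ((nS (σ m) m).T → T.T)) = _
        rw [h1]
      · exact ⟨id, if_pos rfl, fun _ => rfl⟩
  have task : ∀ m n j i, ∃ s, ∃ (P' : (τ.S s).T → (τ.S m).T) (P : (τ.S s).T → (τ.S n).T),
      (∀ x : τ.X, P (x.1 s) = x.1 n) ∧ IsArr P ∧
        Task (τ.S (s + 1)) (τ.S s) (τ.p s) ⟨τ.S m, P'⟩ ⟨τ.S n, P⟩ j i := fun m n j i => by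
    obtain ⟨P', h1, -⟩ := hist _ m (Nat.left_le_pair m (Nat.pair n (Nat.pair j i)))
    obtain ⟨P, h2, h3⟩ := hist _ n ((Nat.left_le_pair n (Nat.pair j i)).trans
      (Nat.right_le_pair m (Nat.pair n (Nat.pair j i))))
    have h4 := nt (σ (Nat.pair m (Nat.pair n (Nat.pair j i)))) (Nat.pair m (Nat.pair n (Nat.pair j i)))
    have h5 := (σ (Nat.pair m (Nat.pair n (Nat.pair j i)))).a n
    simp only [Nat.unpair_pair] at h4
    rw [h1, h2] at h4
    rw [h2] at h5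
    exact ⟨_, P', P, h3, h5, h4⟩
  refine ⟨τ, rfl, fun m n f hf ε hε => ?_, fun n W hW hne => ?_⟩
  · obtain ⟨j, hj⟩ := exists_nat_one_div_lt (half_pos hε)
    obtain ⟨i, h1, h2⟩ := ht (τ.S m) (τ.S n) j f hf
    obtain ⟨s, P', P, h3, -, h4, -⟩ := task m n j i
    refine ⟨s + 1, fun x y hxy => ?_⟩
    have h5 : ∀ u : τ.X, P (τ.p s (u.1 (s + 1))) = u.1 n := fun u => by rw [u.2, h3]
    obtain ⟨g, g1, g2, g3⟩ := h4 h2 (x.1 (s + 1)) (y.1 m) (by
      show dist _ (P (τ.p s (x.1 (s + 1)))) < _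
      rw [h5, ← hxy]
      exact (lt_min_iff.1 (h1 _)).2)
    refine ⟨g, g1, g3, fun u => ?_⟩
    have h6 : dist (tf (τ.S m) (τ.S n) j i (g (u.1 (s + 1)))) (P (τ.p s (u.1 (s + 1)))) <
      1 / ((j : ℝ) + 1) := g2 _
    rw [h5] at h6
    have := dist_triangle_left (f (g (u.1 (s + 1)))) (u.1 n)
      (tf (τ.S m) (τ.S n) j i (g (u.1 (s + 1))))
    linarith [(lt_min_iff.1 (h1 (g (u.1 (s + 1))))).1]
  · obtain ⟨i, hi⟩ := u2 _ W hW hne
    obtain ⟨s, P', P, h3, hP, -, r, r1, r2, r3⟩ := task 0 n 0 i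
    have h5 : ∀ u : τ.X, P (τ.p s (u.1 (s + 1))) = u.1 n := fun u => by rw [u.2, h3]
    refine ⟨fun u => r (u.1 (s + 1)), r1.comp (τ.cont _), fun u hu => r2 _ fun h => hu (hi ?_),
      fun y hy => ?_⟩
    · exact h5 u ▸ h
    · obtain ⟨z, rfl⟩ := hP.surj y
      obtain ⟨t, t', h6, h7, h8⟩ := r3 z fun h => hy (hi h)
      obtain ⟨u, rfl⟩ := τ.surj _ t
      obtain ⟨u', rfl⟩ := τ.surj _ t'
      exact ⟨u, u', (h5 u).symm.trans (congrArg P h6), (h5 u').symm.trans (congrArg P h7), h8⟩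

end Pool.Agent.Lib.MP_11d477_gt.Ind
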