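import Pool.Agent.Lib.MP_11d477_gt.Ind.Limit

/-! The limit of the generic tower is homogeneous, indecomposable and two-dimensional. -/

set_option autoImplicit false

open Set Filter Topology Metric

namespace Pool.Agent.Lib.MP_11d477_gt.Ind

theorem homeo_of_rel {X : Type} [TopologicalSpace X] [CompactSpace X] [T2Space X]
    {R : Set (X × X)} (hR : IsClosed R) (h1 : ∀ u, ∃ v, (u, v) ∈ R) (h2 : ∀ v, ∃ u, (u, v) ∈ R)
    (h3 : ∀ u v v', (u, v) ∈ R → (u, v') ∈ R → v = v')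
    (h4 : ∀ u u' v, (u, v) ∈ R → (u', v) ∈ R → u = u') :
    ∃ h : X ≃ₜ X, ∀ u v, (u, v) ∈ R → h u = v := by
  choose F hF using h1
  choose G hG using h2
  have hc : Continuous F := continuous_iff_isClosed.2 fun C hC => by
    have : F ⁻¹' C = Prod.fst '' (R ∩ Prod.snd ⁻¹' C) := by
      ext u
      exact ⟨fun hu => ⟨(u, F u), ⟨hF u, hu⟩, rfl⟩, by
        rintro ⟨p, ⟨h5, h6⟩, rfl⟩
        show F p.1 ∈ C
        rw [h3 _ _ _ (hF p.1) h5]
        exact h6⟩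
    rw [this]
    exact ((hR.inter (hC.preimage continuous_snd)).isCompact.image continuous_fst).isClosed
  exact ⟨Continuous.homeoOfEquivCompactToT2 (f := ⟨F, G, fun u => h4 _ _ _ (hG _) (hF u),
    fun v => h3 _ _ _ (hF _) (hG v)⟩) hc, fun u v h => h3 _ _ _ (hF u) h⟩

namespace Tower
variable (τ : Tower)

/-- The approximate graph of an arrow through `(x, y)`. -/
def Rel (x y : τ.X) (N : ℕ) (R : Set (τ.X × τ.X)) : Prop :=
  ∃ m n, N ≤ m ∧ ∃ f : (τ.S m).T → (τ.S n).T, IsArr f ∧ f (y.1 m) = x.1 n ∧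
    ∃ η > 0, R = {p | dist (f (p.2.1 m)) (p.1.1 n) ≤ η}

theorem step (hL : τ.Lift) {ε : ℝ} (hε : 0 < ε) : ∃ N, ∀ (x y : τ.X) (R : Set (τ.X × τ.X)),
    τ.Rel x y N R → ∀ N', ∃ R', τ.Rel y x N' R' ∧ (∀ p ∈ R', p.swap ∈ R) ∧
      ∀ p ∈ R', ∀ p' ∈ R', p.2 = p'.2 → dist p.1 p'.1 < ε := by
  obtain ⟨N, hN⟩ := τ.emap hε
  refine ⟨N, ?_⟩
  rintro x y _ ⟨m, n, hm, f, hf, hxy, η, hη, rfl⟩ N'
  obtain ⟨η0, h0, h1⟩ := hN m hm
  obtain ⟨η1, h2, h3⟩ := Metric.uniformContinuous_iff.1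
    (CompactSpace.uniformContinuous_of_continuous hf.cont) _ (half_pos hη)
  obtain ⟨k, hk⟩ := hL m n f hf _ (half_pos hη)
  obtain ⟨g, g1, g2, g3⟩ := hk x y hxy
  obtain ⟨P, p1, p2⟩ := τ.bond (le_max_left k N')
  refine ⟨_, ⟨max k N', m, le_max_right _ _, g ∘ P, g1.comp p1, by rw [Function.comp_apply, p2, g2],
    min η0 η1 / 2, by positivity, rfl⟩, fun p hp => ?_, fun p hp p' hp' h => h1 _ _ ?_⟩
  · rw [mem_ofPred_eq, Function.comp_apply, p2] at hp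
    have h4 := h3 (lt_of_le_of_lt hp (show _ < η1 by linarith [min_le_right η0 η1]))
    have h5 := dist_triangle_left (f (p.1.1 m)) (p.2.1 n) (f (g (p.2.1 k)))
    show dist (f (p.1.1 m)) (p.2.1 n) ≤ η
    linarith [g3 p.2]
  · rw [mem_ofPred_eq] at hp hp'
    rw [h] at hp
    have h5 := dist_triangle_left (p.1.1 m) (p'.1.1 m) ((g ∘ P) (p'.2.1 (max k N')))
    linarith [min_le_left η0 η1]

theorem homog (hL : τ.Lift) (x y : τ.X) : ∃ h : τ.X ≃ₜ τ.X, h x = y := by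
  choose N hN using fun k : ℕ => τ.step hL (ε := 1 / ((k : ℝ) + 1)) Nat.one_div_pos_of_nat
  have h0 : ∃ R, τ.Rel x y (N 0) R := by
    obtain ⟨ψ, h1, -⟩ := (τ.S (N 0)).ch.push isOpen_univ isPreconnected_univ
      (mem_univ (y.1 (N 0))) (mem_univ (x.1 (N 0)))
    exact ⟨_, N 0, N 0, le_rfl, ψ, ⟨∅, finite_empty, arr_homeo ψ ∅⟩, h1, 1, one_pos, rfl⟩
  have h1 : ∀ (k : ℕ) (R : {R // τ.Rel x y (N k) R}), ∃ R' : {R // τ.Rel x y (N (k + 1)) R},
      R'.1 ⊆ R.1 ∧ ∀ p ∈ R'.1, ∀ p' ∈ R'.1, (p.2 = p'.2 → dist p.1 p'.1 < 1 / ((k : ℝ) + 1)) ∧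
        (p.1 = p'.1 → dist p.2 p'.2 < 1 / ((k : ℝ) + 1)) := fun k R => by
    obtain ⟨R1, a1, a2, a3⟩ := hN k x y R.1 R.2 (N k)
    obtain ⟨R2, b1, b2, b3⟩ := hN k y x R1 a1 (N (k + 1))
    exact ⟨⟨R2, b1⟩, fun p hp => a2 _ (b2 p hp), fun p hp p' hp' =>
      ⟨b3 p hp p' hp', a3 _ (b2 p hp) _ (b2 p' hp')⟩⟩
  choose nx n1 n2 using h1
  obtain ⟨R0, hR0⟩ := h0
  let R : ∀ k, {R // τ.Rel x y (N k) R} := fun k => Nat.rec ⟨R0, hR0⟩ nx k
  have hc : ∀ k, IsClosed (R k).1 ∧ (x, y) ∈ (R k).1 ∧ (∀ u, ∃ v, (u, v) ∈ (R k).1) ∧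
      ∀ v, ∃ u, (u, v) ∈ (R k).1 := fun k => by
    obtain ⟨m, n, -, f, hf, hxy, η, hη, e⟩ := (R k).2
    rw [e]
    refine ⟨isClosed_le ((hf.cont.comp ((τ.cont m).comp continuous_snd)).dist
      ((τ.cont n).comp continuous_fst)) continuous_const, by simp [hxy, hη.le], fun u => ?_,
      fun v => ?_⟩
    · obtain ⟨z, hz⟩ := hf.surj (u.1 n)
      obtain ⟨v, rfl⟩ := τ.surj m z
      exact ⟨v, by simp [hz, hη.le]⟩
    · obtain ⟨u, hu⟩ := τ.surj n (f (v.1 m))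
      exact ⟨u, by simp [hu, hη.le]⟩
  have tot : ∀ c : τ.X → τ.X × τ.X, Continuous c → (∀ k, ∃ v, c v ∈ (R k).1) →
      ∃ v, c v ∈ ⋂ k, (R k).1 := fun c h1 h2 => by
    obtain ⟨v, hv⟩ := IsCompact.nonempty_iInter_of_sequence_nonempty_isCompact_isClosed
      (fun k => c ⁻¹' (R k).1) (fun k => preimage_mono (n1 k (R k))) h2
      ((hc 0).1.preimage h1).isCompact fun k => (hc k).1.preimage h1
    exact ⟨v, mem_iInter.2 fun k => mem_iInter.1 hv k⟩
  have small : ∀ a b : τ.X, (∀ k : ℕ, dist a b < 1 / ((k : ℝ) + 1)) → a = b := fun a b h => by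
    by_contra h1
    obtain ⟨k, hk⟩ := exists_nat_one_div_lt (dist_pos.2 h1)
    linarith [h k]
  obtain ⟨h, hh⟩ := homeo_of_rel (isClosed_iInter fun k => (hc k).1)
    (fun u => tot (fun v => (u, v)) (by fun_prop) fun k => (hc k).2.2.1 u)
    (fun v => tot (fun u => (u, v)) (by fun_prop) fun k => (hc k).2.2.2 v)
    (fun u v v' h1 h2 => small _ _ fun k =>
      (n2 k (R k) _ (mem_iInter.1 h1 (k + 1)) _ (mem_iInter.1 h2 (k + 1))).2 rfl)
    (fun u u' v h1 h2 => small _ _ fun k =>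
      (n2 k (R k) _ (mem_iInter.1 h1 (k + 1)) _ (mem_iInter.1 h2 (k + 1))).1 rfl)
  exact ⟨h, hh x y (mem_iInter.2 fun k => (hc k).2.1)⟩

theorem indec (hS : τ.Spl) {K L : Set τ.X} (hK : IsClosed K) (hK' : IsPreconnected K)
    (hL : IsClosed L) (hU : K ∪ L = univ) : K = univ ∨ L = univ := by
  by_contra h
  push Not at h
  obtain ⟨u, hu⟩ := (ne_univ_iff_exists_notMem K).1 h.1
  obtain ⟨v, hv⟩ := (ne_univ_iff_exists_notMem L).1 h.2
  obtain ⟨N1, h1⟩ := τ.sep hK continuous_id continuous_id (continuous_const (y := u))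
    fun y hy _ h => hu (h ▸ hy)
  obtain ⟨N2, h2⟩ := τ.sep hL continuous_id continuous_id (continuous_const (y := v))
    fun y hy _ h => hv (h ▸ hy)
  obtain ⟨r, r1, r2, r3⟩ := hS (max N1 N2) ((fun x : τ.X => x.1 (max N1 N2)) '' K)ᶜ
    (hK.isCompact.image (τ.cont _)).isClosed.isOpen_compl
    ⟨u.1 _, fun ⟨y, hy, h3⟩ => h1 _ (le_max_left _ _) y hy rfl h3⟩
  have h3 : ∀ w : τ.X, w.1 (max N1 N2) = v.1 (max N1 N2) → w ∈ K := fun w hw =>
    (hU ▸ mem_univ w : w ∈ K ∪ L).resolve_right fun h4 => h2 _ (le_max_right _ _) w h4 rfl hw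
  obtain ⟨w, w', h4, h5, h6⟩ := r3 (v.1 _) fun h4 => h4 ⟨v, h3 v rfl, rfl⟩
  have h7 : (r '' K).Finite := (toFinite {(1 : ℂ), -1}).subset (by
    rintro _ ⟨z, hz, rfl⟩
    exact r2 z fun h7 => h7 ⟨z, hz, rfl⟩)
  exact h6 (h7.countable.isTotallyDisconnected _ Subset.rfl (hK'.image r r1.continuousOn)
    ⟨w, h3 w h4, rfl⟩ ⟨w', h3 w' h5, rfl⟩)

theorem dim_le : DimLE τ.X 2 := fun k U hU hc => by
  obtain ⟨ε, hε, h1⟩ := lebesgue_number_lemma_of_metric (s := univ) isCompact_univ hU hc.ge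
  obtain ⟨n, hn⟩ := τ.emap hε
  obtain ⟨η, hη, h2⟩ := hn n le_rfl
  obtain ⟨V, v1, v2, v3, v4⟩ := (τ.S n).dim k (fun i => ((fun x : τ.X => x.1 n) '' (U i)ᶜ)ᶜ)
    (fun i => ((hU i).isClosed_compl.isCompact.image (τ.cont n)).isClosed.isOpen_compl)
    (eq_univ_of_forall fun y => by
      obtain ⟨u, rfl⟩ := τ.surj n y
      obtain ⟨i, hi⟩ := h1 u (mem_univ u)
      exact mem_iUnion.2 ⟨i, fun ⟨v, hv, h3⟩ => hv (hi (h2 v u (by simp [show v.1 n = u.1 n from h3, hη.le])))⟩)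
  refine ⟨fun i => (fun x : τ.X => x.1 n) ⁻¹' V i, fun i => (v1 i).preimage (τ.cont n),
    fun i x hx => by_contra fun h => v2 i hx ⟨x, h, rfl⟩, by rw [← preimage_iUnion, v3]; rfl,
    fun x => v4 _⟩

theorem not_dim_le {g0 : (τ.S 0).T → ℂ} (c0 : Continuous g0) (e0 : Ess g0) : ¬ DimLE τ.X 1 := by
  intro h
  let W : Fin 3 → Set ℂ := ![{z | z.re < 0 ∨ z.re < z.im ∨ ‖z‖ < 1 / 2},
    {z | z.im < 0 ∨ z.im < z.re ∨ ‖z‖ < 1 / 2}, {z | 0 < z.re ∨ 0 < z.im ∨ ‖z‖ < 1 / 2}]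
  have hW : ∀ i, IsOpen (W i) := fun i => by
    have r := Complex.continuous_re
    have m := Complex.continuous_im
    have n := isOpen_lt (continuous_norm (E := ℂ)) (continuous_const (y := (1 / 2 : ℝ)))
    fin_cases i
    · exact (isOpen_lt r continuous_const).union ((isOpen_lt r m).union n)
    · exact (isOpen_lt m continuous_const).union ((isOpen_lt m r).union n)
    · exact (isOpen_lt continuous_const r).union ((isOpen_lt continuous_const m).union n)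
  have hWc : ∀ z, ∃ i, z ∈ W i := fun z => by
    by_contra h1
    push Not at h1
    have a0 := h1 0
    have a1 := h1 1
    have a2 := h1 2
    simp only [W, Matrix.cons_val, mem_ofPred_eq, not_or, not_lt] at a0 a1 a2
    have : z = 0 := Complex.ext (le_antisymm a2.1 a0.1) (le_antisymm a2.2.1 a1.1)
    rw [this, norm_zero] at a0
    linarith [a0.2.2]
  obtain ⟨V, v1, v2, v3, v4⟩ := h 3 (fun i => (fun x : τ.X => g0 (x.1 0)) ⁻¹' W i)
    (fun i => (hW i).preimage (c0.comp (τ.cont 0)))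
    (eq_univ_of_forall fun x => mem_iUnion.2 (hWc _))
  obtain ⟨A, a1, a2, a3⟩ := exists_iUnion_eq_closed_subset v1 (fun _ => toFinite _) v3
  obtain ⟨m, hm⟩ := τ.sep ((a2 0).prod ((a2 1).prod (a2 2))) continuous_fst
    (continuous_fst.comp continuous_snd) (continuous_snd.comp continuous_snd) (by
      rintro ⟨a, b, c⟩ ⟨h0, h1, h2⟩ (rfl : a = b) (rfl : a = c)
      have := v4 a
      rw [show {i : Fin 3 | a ∈ V i} = univ from eq_univ_of_forall fun i => by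
        fin_cases i
        exacts [a3 0 h0, a3 1 h1, a3 2 h2]] at this
      simp at this)
  obtain ⟨P, p1, p2⟩ := τ.bond (Nat.zero_le m)
  have hd : ∀ i, ∃ d : (τ.S m).T → ℝ, Continuous d ∧ (∀ y, 0 ≤ d y) ∧
      ∀ y, d y = 0 ↔ y ∈ (fun x : τ.X => x.1 m) '' A i := fun i => by
    rcases ((fun x : τ.X => x.1 m) '' A i).eq_empty_or_nonempty with h1 | h1
    · exact ⟨fun _ => 1, continuous_const, fun _ => zero_le_one, by simp [h1]⟩
    · exact ⟨fun y => infDist y _, continuous_infDist_pt _, fun _ => infDist_nonneg, fun y =>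
        (((a2 i).isCompact.image (τ.cont m)).isClosed.mem_iff_infDist_zero h1).symm⟩
  choose d d1 d2 d3 using hd
  let g : (τ.S m).T → ℂ := g0 ∘ P
  have cg : Continuous g := c0.comp p1.cont
  let χ : (τ.S m).T → ℝ := fun y => max 0 (min 1 (2 * ‖g y‖ - 1))
  have cd0 := d1 0
  have cd1 := d1 1
  have cd2 := d1 2
  obtain ⟨y, hy⟩ := p1.ess g0 e0 1 le_rfl (fun y => ((1 - χ y) * (d 0 y - d 2 y) : ℝ) +
    ((1 - χ y) * (d 1 y - d 2 y) : ℝ) * Complex.I + (χ y : ℝ) * g y) (by fun_prop) fun y hy => by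
      have : χ y = 1 := by
        simp only [χ]
        rw [min_eq_left (by change 1 ≤ ‖g y‖ at hy; linarith)]
        simp
      simp [this, g]
  have hre : (1 - χ y) * (d 0 y - d 2 y) + χ y * (g y).re = 0 := by
    simpa using congrArg Complex.re hy
  have him : (1 - χ y) * (d 1 y - d 2 y) + χ y * (g y).im = 0 := by
    simpa using congrArg Complex.im hy
  obtain ⟨x, rfl⟩ := τ.surj m y
  obtain ⟨i, hi⟩ := mem_iUnion.1 (a1 ▸ mem_univ x)
  have z0 : d i (x.1 m) = 0 := (d3 i _).2 ⟨x, hi, rfl⟩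
  have hx : g (x.1 m) ∈ W i := by
    simp only [g, Function.comp_apply, p2]
    exact v2 i (a3 i hi)
  have c1 : χ (x.1 m) ≤ 1 := max_le zero_le_one (min_le_left _ _)
  have b0 := d2 0 (x.1 m)
  have b1 := d2 1 (x.1 m)
  have b2 := d2 2 (x.1 m)
  rcases (le_max_left 0 _ : 0 ≤ χ (x.1 m)).eq_or_lt with h0 | h0
  · change 0 = χ (x.1 m) at h0
    rw [← h0] at hre him
    have h1 : ∀ j, d j (x.1 m) = 0 := fun j => by
      fin_cases i <;> fin_cases j <;> simp at z0 hre him ⊢ <;> linarith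
    obtain ⟨a, ha, e1⟩ := (d3 0 _).1 (h1 0)
    obtain ⟨b, hb, e2⟩ := (d3 1 _).1 (h1 1)
    obtain ⟨c, hc, e3⟩ := (d3 2 _).1 (h1 2)
    exact hm m le_rfl (a, b, c) ⟨ha, hb, hc⟩ (e1.trans e2.symm) (e1.trans e3.symm)
  · have h1 : ¬ ‖g (x.1 m)‖ < 1 / 2 := fun h1 => by
      have := (lt_max_iff.1 h0).resolve_left (lt_irrefl _)
      linarith [(lt_min_iff.1 this).2]
    change 0 < χ (x.1 m) at h0
    have m0 := mul_nonneg (sub_nonneg.2 c1) b0
    have m1 := mul_nonneg (sub_nonneg.2 c1) b1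
    have m2 := mul_nonneg (sub_nonneg.2 c1) b2
    fin_cases i
    · change d 0 _ = 0 at z0
      rw [z0] at hre
      rcases hx with hx | hx | hx
      · nlinarith [mul_pos h0 (neg_pos.2 hx)]
      · nlinarith [mul_pos h0 (sub_pos.2 hx)]
      · exact h1 hx
    · change d 1 _ = 0 at z0
      rw [z0] at him
      rcases hx with hx | hx | hx
      · nlinarith [mul_pos h0 (neg_pos.2 hx)]
      · nlinarith [mul_pos h0 (sub_pos.2 hx)]
      · exact h1 hx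
    · change d 2 _ = 0 at z0
      rw [z0] at hre him
      rcases hx with hx | hx | hx
      · nlinarith [mul_pos h0 hx]
      · nlinarith [mul_pos h0 hx]
      · exact h1 hx

end Tower

theorem main : ∃ (X : Type) (_ : MetricSpace X), CompactSpace X ∧ ConnectedSpace X ∧
    Nontrivial X ∧ (∀ x y : X, ∃ h : X ≃ₜ X, h x = y) ∧
    (∀ K L : Set X, IsClosed K → IsPreconnected K → IsClosed L → K ∪ L = univ →
      K = univ ∨ L = univ) ∧ DimLE X 2 ∧ ¬ DimLE X 1 := by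
  obtain ⟨S0, g0, c0, e0⟩ := exists_base
  obtain ⟨τ, rfl, hL, hS⟩ := exists_tower S0
  obtain ⟨y⟩ : Nonempty (τ.S 0).T := inferInstance
  obtain ⟨a, -, b, -, hab⟩ := ((τ.S 0).ch.infinite (x := y) univ_mem).nontrivial
  obtain ⟨u, rfl⟩ := τ.surj 0 a
  obtain ⟨v, rfl⟩ := τ.surj 0 b
  exact ⟨τ.X, inferInstance, inferInstance, inferInstance, ⟨u, v, fun h => hab (by rw [h])⟩,
    τ.homog hL,
    fun _ _ h1 h2 h3 h4 => τ.indec hS h1 h2 h3 h4, τ.dim_le, τ.not_dim_le c0 e0⟩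

end Pool.Agent.Lib.MP_11d477_gt.Ind
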