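import Pool.Agent.Lib.MP_11d477_gt.Ind.Basic

/-! Pushing points around on a surface. -/

set_option autoImplicit false

open Set Filter Topology Metric

namespace Pool.Agent.Lib.MP_11d477_gt.Ind

theorem Ch.oph {T : Type} [TopologicalSpace T] (h : Ch T) (x : T) {O : Set T} (hO : O ∈ 𝓝 x) :
    ∃ (φ : OpenPartialHomeomorph T ℂ) (r : ℝ), 0 < r ∧ x ∈ φ.source ∧
      closedBall (φ x) r ⊆ φ.target ∧ ∀ z ∈ closedBall (φ x) r, φ.symm z ∈ O := by
  obtain ⟨f, hf⟩ := h x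
  obtain ⟨φ, hx⟩ := hf.oph
  have h1 : φ.symm ⁻¹' O ∈ 𝓝 (φ x) := by
    refine φ.continuousAt_symm (φ.map_source hx) ?_
    rwa [φ.left_inv hx]
  obtain ⟨r, hr, h2⟩ := nhds_basis_closedBall.mem_iff.1
    (inter_mem (φ.open_target.mem_nhds (φ.map_source hx)) h1)
  exact ⟨φ, r, hr, hx, fun z hz => (h2 hz).1, fun z hz => (h2 hz).2⟩

theorem glue {T Y : Type} [TopologicalSpace T] [T2Space T] [TopologicalSpace Y]
    (φ : OpenPartialHomeomorph T ℂ) {D : Set ℂ} (hD : IsCompact D) (hs : D ⊆ φ.target)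
    {F F0 : T → Y} (hF : ContinuousOn F φ.source) (h0 : Continuous F0)
    (h1 : ∀ x, x ∉ φ.source → F x = F0 x) (h2 : ∀ x ∈ φ.source, φ x ∉ D → F x = F0 x) :
    Continuous F := by
  have hK : IsClosed (φ.symm '' D) := (hD.image_of_continuousOn (φ.continuousOn_symm.mono hs)).isClosed
  refine continuous_iff_continuousAt.2 fun x => ?_
  by_cases hx : x ∈ φ.source
  · exact hF.continuousAt (φ.open_source.mem_nhds hx)
  · have : x ∈ (φ.symm '' D)ᶜ := fun ⟨z, hz, h3⟩ => hx (h3 ▸ φ.map_target (hs hz))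
    refine h0.continuousAt.congr ?_
    filter_upwards [hK.isOpen_compl.mem_nhds this] with y hy
    by_cases hy2 : y ∈ φ.source
    · exact (h2 y hy2 fun h3 => hy ⟨_, h3, φ.left_inv hy2⟩).symm
    · exact (h1 y hy2).symm

theorem plane_push (c v : ℂ) {r : ℝ} (hr : 0 < r) (hv : ‖v‖ < r) :
    ∃ H : ℂ ≃ₜ ℂ, H c = c + v ∧ ∀ z, z ∉ closedBall c r → H z = z := by
  let f : ℂ → ℂ := fun z => z + (max 0 (r - ‖z - c‖) / r : ℝ) • v
  have hf : ApproximatesLinearOn f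
      ((ContinuousLinearEquiv.refl ℝ ℂ : ℂ ≃L[ℝ] ℂ) : ℂ →L[ℝ] ℂ) univ
      (NNReal.mk (‖v‖ / r) (by positivity)) := by
    intro x _ y _
    have e1 : f x - f y - ((ContinuousLinearEquiv.refl ℝ ℂ : ℂ ≃L[ℝ] ℂ) : ℂ →L[ℝ] ℂ) (x - y) =
        ((max 0 (r - ‖x - c‖) - max 0 (r - ‖y - c‖)) / r : ℝ) • v := by
      simp only [f, ContinuousLinearEquiv.coe_refl, ContinuousLinearMap.id_apply, sub_div, sub_smul]
      ring
    rw [e1, norm_smul, Real.norm_eq_abs, abs_div, abs_of_pos hr]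
    have h1 : |max 0 (r - ‖x - c‖) - max 0 (r - ‖y - c‖)| ≤ ‖x - y‖ := by
      rw [max_comm 0, max_comm 0]
      refine (abs_max_sub_max_le_abs _ _ _).trans ?_
      rw [show r - ‖x - c‖ - (r - ‖y - c‖) = ‖y - c‖ - ‖x - c‖ by ring]
      refine (abs_norm_sub_norm_le _ _).trans (le_of_eq ?_)
      rw [show y - c - (x - c) = -(x - y) by ring, norm_neg]
    show _ ≤ ‖v‖ / r * ‖x - y‖
    calc _ ≤ ‖x - y‖ / r * ‖v‖ := by gcongr
      _ = _ := by ring
  refine ⟨ApproximatesLinearOn.toHomeomorph (f' := ContinuousLinearEquiv.refl ℝ ℂ) f hf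
    (Or.inr ?_), ?_, fun z hz => ?_⟩
  · have : ‖(((ContinuousLinearEquiv.refl ℝ ℂ : ℂ ≃L[ℝ] ℂ).symm : ℂ ≃L[ℝ] ℂ) : ℂ →L[ℝ] ℂ)‖₊ = 1 := by
      simp
    rw [this, inv_one, ← NNReal.coe_lt_coe]
    exact (div_lt_one hr).2 hv
  · show f c = _
    simp [f, hr.le, hr.ne']
  · show f z = _
    rw [mem_closedBall, dist_eq_norm, not_le] at hz
    simp [f, max_eq_left (show r - ‖z - c‖ ≤ 0 by linarith)]

open Classical in
theorem Ch.push_loc {T : Type} [TopologicalSpace T] [T2Space T] (h : Ch T) (x : T) {O : Set T}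
    (hO : O ∈ 𝓝 x) : ∀ᶠ t in 𝓝 x, ∃ ψ : T ≃ₜ T, ψ x = t ∧ ∀ y, y ∉ O → ψ y = y := by
  obtain ⟨φ, r, hr, hx, h1, h2⟩ := h.oph x hO
  have key : ∀ G : ℂ ≃ₜ ℂ, (∀ z, z ∉ closedBall (φ x) r → G z = z) →
      ∀ y ∈ φ.source, G (φ y) ∈ φ.target := fun G hG y hy => by
    by_cases h3 : G (φ y) ∈ closedBall (φ x) r
    · exact h1 h3
    · rw [G.injective (hG _ h3)]
      exact φ.map_source hy
  let E : (ℂ ≃ₜ ℂ) → T → T := fun G y => if y ∈ φ.source then φ.symm (G (φ y)) else y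
  have hc : ∀ G : ℂ ≃ₜ ℂ, (∀ z, z ∉ closedBall (φ x) r → G z = z) → Continuous (E G) :=
    fun G hG => glue φ (isCompact_closedBall _ _) h1
      ((φ.continuousOn_symm.comp (G.continuous.comp_continuousOn φ.continuousOn) (key G hG)).congr
        fun y hy => if_pos hy) continuous_id (fun y hy => if_neg hy)
      fun y hy h3 => (if_pos hy).trans (by rw [hG _ h3, φ.left_inv hy]; rfl)
  have hi : ∀ G : ℂ ≃ₜ ℂ, (∀ z, z ∉ closedBall (φ x) r → G z = z) →
      ∀ y, E G.symm (E G y) = y := fun G hG y => by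
    by_cases hy : y ∈ φ.source
    · simp only [E, if_pos hy, if_pos (φ.map_target (key G hG y hy)),
        φ.right_inv (key G hG y hy), G.symm_apply_apply, φ.left_inv hy]
    · simp only [E, if_neg hy]
  filter_upwards [φ.open_source.mem_nhds hx, φ.continuousAt hx (ball_mem_nhds _ hr)] with t ht ht2
  obtain ⟨H, e1, e2⟩ := plane_push (φ x) (φ t - φ x) hr (by simpa [dist_eq_norm] using ht2)
  have e3 : ∀ z, z ∉ closedBall (φ x) r → H.symm z = z := fun z hz => by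
    rw [H.symm_apply_eq, e2 z hz]
  refine ⟨⟨⟨E H, E H.symm, hi H e2, hi H.symm e3⟩, hc H e2, hc _ e3⟩, ?_, fun y hy => ?_⟩
  · show E H x = t
    simp only [E, if_pos hx, e1, add_sub_cancel, φ.left_inv ht]
  · show E H y = y
    by_cases hy2 : y ∈ φ.source
    · simp only [E, if_pos hy2]
      rw [e2 _ fun h3 => hy (φ.left_inv hy2 ▸ h2 _ h3), φ.left_inv hy2]
    · simp only [E, if_neg hy2]

theorem Ch.push {T : Type} [TopologicalSpace T] [T2Space T] (h : Ch T) {O : Set T}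
    (hO : IsOpen O) (hc : IsPreconnected O) {x t : T} (hx : x ∈ O) (ht : t ∈ O) :
    ∃ ψ : T ≃ₜ T, ψ x = t ∧ ∀ y, y ∉ O → ψ y = y := by
  refine hc.induction₂' (fun x t => ∃ ψ : T ≃ₜ T, ψ x = t ∧ ∀ y, y ∉ O → ψ y = y) ?_ ?_ hx ht
  · intro a ha
    filter_upwards [mem_nhdsWithin_of_mem_nhds (h.push_loc a (hO.mem_nhds ha))] with b
      ⟨ψ, h1, h2⟩
    exact ⟨⟨ψ, h1, h2⟩, ψ.symm, by rw [ψ.symm_apply_eq, h1],
      fun y hy => by rw [ψ.symm_apply_eq, h2 y hy]⟩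
  · rintro a b c - - - ⟨ψ, h1, h2⟩ ⟨χ, h3, h4⟩
    exact ⟨ψ.trans χ, by simp [h1, h3], fun y hy => by simp [h2 y hy, h4 y hy]⟩

theorem stay {T : Type} [TopologicalSpace T] (ψ : T ≃ₜ T) {O : Set T}
    (h : ∀ y, y ∉ O → ψ y = y) (y : T) : ψ y = y ∨ (y ∈ O ∧ ψ y ∈ O) := by
  by_cases hy : y ∈ O
  · by_cases h2 : ψ y ∈ O
    · exact Or.inr ⟨hy, h2⟩
    · exact Or.inl (ψ.injective (h _ h2))
  · exact Or.inl (h y hy)

theorem Ch.avoid {T : Type} [MetricSpace T] (h : Ch T) {B Z : Set T} (hB : B.Finite)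
    (hZ : Z.Finite) {δ : ℝ} (hδ : 0 < δ) :
    ∃ g : T ≃ₜ T, (∀ x, dist (g x) x < δ) ∧ ∀ b ∈ B, g b ∉ Z := by
  induction B, hB using Set.Finite.induction_on generalizing δ with
  | empty => exact ⟨Homeomorph.refl T, fun x => by simpa using hδ, fun _ hb => hb.elim⟩
  | @insert b B hb hB ih =>
    obtain ⟨g, h1, h2⟩ := ih (half_pos hδ)
    have hO : ball (g b) (δ / 4) ∩ (g '' B)ᶜ ∈ 𝓝 (g b) :=
      inter_mem (ball_mem_nhds _ (by positivity)) ((hB.image g).isClosed.isOpen_compl.mem_nhds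
        fun ⟨b', h3, h4⟩ => hb (g.injective h4 ▸ h3))
    obtain ⟨t, ⟨ψ, h3, h4⟩, h5⟩ := ((h.infinite (h.push_loc (g b) hO)).diff hZ).nonempty
    refine ⟨g.trans ψ, fun x => ?_, fun b' hb' => ?_⟩
    · have h6 : dist (ψ (g x)) (g x) < δ / 2 := by
        rcases stay ψ h4 (g x) with h6 | ⟨h6, h7⟩
        · rw [h6, dist_self]
          positivity
        · have := dist_triangle_right (ψ (g x)) (g x) (g b)
          linarith [mem_ball.1 h6.1, mem_ball.1 h7.1]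
      have := dist_triangle (ψ (g x)) (g x) x
      show dist (ψ (g x)) x < δ
      linarith [h1 x]
    · show ψ (g b') ∉ Z
      rcases hb' with rfl | hb'
      · rwa [h3]
      · rw [h4 _ fun h6 => h6.2 ⟨b', hb', rfl⟩]
        exact h2 b' hb'

theorem Ch.ulc {T : Type} [MetricSpace T] [CompactSpace T] (h : Ch T) {ε : ℝ} (hε : 0 < ε) :
    ∃ δ > 0, ∀ x y : T, dist x y < δ → ∃ O : Set T, IsOpen O ∧ IsPreconnected O ∧ x ∈ O ∧ y ∈ O ∧
      ∀ a ∈ O, ∀ b ∈ O, dist a b < ε := by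
  have := h.lc
  obtain ⟨δ, hδ, h1⟩ := lebesgue_number_lemma_of_metric (s := univ) isCompact_univ
    (c := fun x : T => connectedComponentIn (ball x (ε / 2)) x)
    (fun x => isOpen_ball.connectedComponentIn)
    (fun x _ => mem_iUnion.2 ⟨x, mem_connectedComponentIn (mem_ball_self (half_pos hε))⟩)
  refine ⟨δ, hδ, fun x y hxy => ?_⟩
  obtain ⟨c, hc⟩ := h1 y (mem_univ y)
  refine ⟨_, isOpen_ball.connectedComponentIn, isPreconnected_connectedComponentIn, hc hxy,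
    hc (mem_ball_self hδ), fun a ha b hb => ?_⟩
  have := dist_triangle_right a b c
  linarith [mem_ball.1 (connectedComponentIn_subset _ _ ha),
    mem_ball.1 (connectedComponentIn_subset _ _ hb)]

/-- Two points over a connected open set are joined by a push, up to the deck involution. -/
theorem Pre.join {T T0 : Type} [TopologicalSpace T] [TopologicalSpace T0] [T2Space T]
    [CompactSpace T] [ConnectedSpace T] [T2Space T0] [PreconnectedSpace T0] {e : T → T0}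
    {l : T0 → ℂ} {w : T → ℂ} (h : Pre e l w) (hT : Ch T) {O : Set T0} (hO : IsOpen O)
    (hc : IsPreconnected O) {s t : T} (hs : e s ∈ O) (ht : e t ∈ O) :
    ∃ ψ : T ≃ₜ T, ψ s = t ∧ ∀ y, e (ψ y) = e y ∨ (e y ∈ O ∧ e (ψ y) ∈ O) := by
  have := hT.lc
  obtain ⟨σ, h1, h2, h3⟩ := h.invol
  have hP : IsOpen (e ⁻¹' O) := hO.preimage h.ce
  let K : T → Set T := fun u => connectedComponentIn (e ⁻¹' O) u
  have hK : ∀ u, IsOpen (e '' K u) := fun u => h.isOpenMap _ hP.connectedComponentIn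
  have hsub : ∀ u v a, a ∈ K u → a ∈ K v → K u = K v := fun u v a ha hb =>
    (connectedComponentIn_eq ha).trans (connectedComponentIn_eq hb).symm
  have hO2 : O ⊆ e '' K t := by
    refine hc.subset_of_closure_inter_subset (hK t) ⟨e t, ht, t, mem_connectedComponentIn ht, rfl⟩ ?_
    rintro x ⟨hx, hxO⟩
    obtain ⟨u, rfl⟩ := h.surj x
    have hu : u ∈ K u := mem_connectedComponentIn hxO
    obtain ⟨_, ⟨a, ha, rfl⟩, b, hb, hab⟩ := mem_closure_iff.1 hx _ (hK u) ⟨u, hu, rfl⟩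
    rcases h3 _ _ hab with h4 | h4
    · exact ⟨u, hsub u t a ha (h4 ▸ hb) ▸ hu, rfl⟩
    · have h5 : σ '' K u ⊆ connectedComponentIn (e ⁻¹' O) b :=
        (isPreconnected_connectedComponentIn.image σ σ.continuous.continuousOn).subset_connectedComponentIn
          ⟨a, ha, by rw [h4, h2]⟩ (by
            rintro _ ⟨c, hc, rfl⟩
            show e (σ c) ∈ O
            rw [h1]
            exact connectedComponentIn_subset (e ⁻¹' O) _ hc)
      rw [← connectedComponentIn_eq hb] at h5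
      exact ⟨σ u, h5 ⟨u, hu, rfl⟩, h1 u⟩
  obtain ⟨k, hk, hks⟩ := hO2 hs
  obtain ⟨ψ, h4, h5⟩ := hT.push hP.connectedComponentIn isPreconnected_connectedComponentIn hk
    (mem_connectedComponentIn ht)
  have h6 : ∀ y, e (ψ y) = e y ∨ (e y ∈ O ∧ e (ψ y) ∈ O) := fun y => by
    rcases stay ψ h5 y with h6 | ⟨h6, h7⟩
    · exact Or.inl (by rw [h6])
    · exact Or.inr ⟨connectedComponentIn_subset (e ⁻¹' O) _ h6,
        connectedComponentIn_subset (e ⁻¹' O) _ h7⟩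
  rcases h3 _ _ hks.symm with h7 | h7
  · exact ⟨ψ, h7 ▸ h4, h6⟩
  · exact ⟨σ.trans ψ, (congrArg ψ h7.symm).trans h4, fun y => h1 y ▸ h6 (σ y)⟩

end Pool.Agent.Lib.MP_11d477_gt.Ind
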