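import Pool.Agent.Lib.MP_11d477_gt.Ind.Arrow

/-! Essential maps, the splitting cover, and the dimension of a surface. -/

set_option autoImplicit false

open Set Filter Topology Metric

namespace Pool.Agent.Lib.MP_11d477_gt.Ind

/-- No power of `g` on the set where `1 ≤ ‖g‖` extends without zeros. -/
def Ess {T : Type} [TopologicalSpace T] (g : T → ℂ) : Prop :=
  ∀ d : ℕ, 1 ≤ d → ∀ F : T → ℂ, Continuous F → (∀ x, 1 ≤ ‖g x‖ → F x = g x ^ d) → ∃ x, F x = 0

theorem Pre.ess {S T : Surf} {e : S.T → T.T} {l : T.T → ℂ} {w : S.T → ℂ} (h : Pre e l w)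
    {g : T.T → ℂ} (hg : Ess g) : Ess (g ∘ e) := fun d hd F hF h1 => by
  obtain ⟨σ, h2, h3, h4⟩ := h.invol
  choose s hs using h.surj
  have h5 : ∀ t, F (s (e t)) * F (σ (s (e t))) = F t * F (σ t) := fun t => by
    rcases h4 t (s (e t)) (hs _).symm with h5 | h5
    · rw [h5]
    · rw [h5, h3, mul_comm]
  have hq : IsQuotientMap e := h.isOpenMap.isQuotientMap h.ce h.surj
  obtain ⟨x, hx⟩ := hg (d + d) (by omega) (fun x => F (s x) * F (σ (s x)))
    (hq.continuous_iff.2 ((hF.mul (hF.comp σ.continuous)).congr fun t => (h5 t).symm))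
    fun x hx => by
      rw [h1 (s x) (by simpa [hs] using hx), h1 (σ (s x)) (by simpa [hs, h2] using hx), pow_add]
      simp [hs, h2]
  rcases mul_eq_zero.1 hx with h6 | h6 <;> exact ⟨_, h6⟩

theorem IsArr.ess {S T : Surf} {a : S.T → T.T} (h : IsArr a) : ∀ g : T.T → ℂ, Ess g → Ess (g ∘ a) :=
  h.ind (P := fun _ T a => ∀ g : T.T → ℂ, Ess g → Ess (g ∘ a)) (fun _ _ hg => hg)
    fun _ _ _ _ _ _ _ h _ ih g hg => h.ess (ih g hg)

theorem no_ext {G : ℂ → ℂ} (hG : Continuous G) (h0 : ∀ z, G z ≠ 0) {d : ℕ}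
    (h1 : ∀ z, ‖z‖ = 1 → G z = z ^ d) : d = 0 := by
  obtain ⟨L, ⟨-, hL⟩, -⟩ := Complex.isCoveringMap_exp.existsUnique_continuousMap_lifts
    ⟨fun z => ⟨G z, h0 z⟩, hG.subtype_mk _⟩ 0 (Complex.log (G 0))
    (Subtype.ext (Complex.exp_log (h0 0)))
  have h2 : ∀ z, Complex.exp (L z) = G z := fun z => congrArg Subtype.val (congrFun hL z)
  have h3 : ∀ θ : ℝ, Complex.exp (L (Complex.exp (θ * Complex.I)) - d * (θ * Complex.I)) = 1 :=
    fun θ => by
      rw [Complex.exp_sub, h2, h1 _ (Complex.norm_exp_ofReal_mul_I θ), Complex.exp_nat_mul,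
        div_self (pow_ne_zero _ (Complex.exp_ne_zero _))]
  have h4 := Complex.isCoveringMap_exp.const_of_comp
    (g := fun θ : ℝ => L (Complex.exp (θ * Complex.I)) - d * (θ * Complex.I)) (by fun_prop)
    (fun a b => Subtype.ext (by simp only [h3])) 0 (2 * Real.pi)
  simp only [Complex.ofReal_zero, zero_mul, Complex.exp_zero, mul_zero, sub_zero,
    Complex.ofReal_mul, Complex.ofReal_ofNat, Complex.exp_two_pi_mul_I] at h4
  have h5 : (d : ℂ) * (2 * Real.pi * Complex.I) = 0 := by linear_combination h4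
  exact_mod_cast (mul_eq_zero.1 h5).resolve_right Complex.two_pi_I_ne_zero

theorem exists_base : ∃ (S : Surf) (g : S.T → ℂ), Continuous g ∧ Ess g := by
  have hc : ConnectedSpace (sphere (0 : EuclideanSpace ℝ (Fin 3)) 1) :=
    isConnected_iff_connectedSpace.1 (isConnected_sphere (by
      rw [← Module.finrank_eq_rank]
      simp) 0 zero_le_one)
  have hch : Ch (sphere (0 : EuclideanSpace ℝ (Fin 3)) 1) := fun x =>
    ⟨_, (lh_of_openEmb Complex.orthonormalBasisOneI.repr.symm.toHomeomorph.isOpenEmbedding _).comp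
      (lh_of_oph (chartAt (EuclideanSpace ℝ (Fin 2)) x) (mem_chart_source _ x))⟩
  refine ⟨Surf.mk _ hch, fun p => 2 * (p.1 0 + p.1 1 * Complex.I), by fun_prop, fun d hd F hF h1 => ?_⟩
  by_contra h0
  push Not at h0
  let v : ℂ → EuclideanSpace ℝ (Fin 3) := fun z => !₂[z.re, z.im, √3]
  have hv : Continuous v := by
    refine (PiLp.continuous_toLp 2 _).comp (continuous_pi fun i => ?_)
    fin_cases i <;> simp <;> fun_prop
  have hn : ∀ z, ‖v z‖ ≠ 0 := fun z h => by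
    have := congrArg (fun p : EuclideanSpace ℝ (Fin 3) => p 2) (norm_eq_zero.1 h)
    simp [v] at this
  let c : ℂ → sphere (0 : EuclideanSpace ℝ (Fin 3)) 1 := fun z =>
    ⟨‖v z‖⁻¹ • v z, by simp [norm_smul, hn z]⟩
  have hcc : Continuous c := ((hv.norm.inv₀ hn).smul hv).subtype_mk _
  have := no_ext (d := d) (hF.comp hcc) (fun z => h0 _) fun z hz => by
    have h2 : ‖v z‖ = 2 := by
      have h3 : z.re ^ 2 + z.im ^ 2 = 1 := by
        have := Complex.sq_norm z
        rw [hz, Complex.normSq_apply] at this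
        linarith
      rw [EuclideanSpace.norm_eq, Fin.sum_univ_three, Real.sqrt_eq_iff_mul_self_eq (by positivity)
        (by norm_num)]
      simp [v]
      linarith
    have h3 : 2 * (((c z).1 0 : ℂ) + (c z).1 1 * Complex.I) = z := by
      simp only [c, h2]
      apply Complex.ext <;> simp [v]
    exact (h1 (c z) (le_of_eq (hz.symm.trans (congrArg norm h3.symm)))).trans
      (congrArg (· ^ d) h3)
  omega

/-- The fold with two regular zeros. -/
noncomputable def fold (u : ℂ) : ℂ :=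
  (min 1 (max |u.re| |u.im| - 1) : ℝ) + (u.im * max 0 (min 1 (3 - max |u.re| |u.im|)) : ℝ) * Complex.I

theorem fold_cont : Continuous fold := by
  unfold fold
  fun_prop

theorem fold_far {u : ℂ} (h : 6 < ‖u‖) : fold u = 1 := by
  have h1 := Complex.norm_le_abs_re_add_abs_im u
  have h2 : 3 < max |u.re| |u.im| := by
    linarith [le_max_left |u.re| |u.im|, le_max_right |u.re| |u.im|]
  rw [fold, min_eq_left (by linarith), min_eq_right (by linarith), max_eq_left (by linarith)]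
  simp

theorem fold_near {u : ℂ} (h1 : 1 / 2 < |u.re|) (h2 : |u.re| < 2) (h3 : |u.im| < 1 / 2) :
    fold u = (|u.re| - 1 : ℝ) + u.im * Complex.I := by
  rw [fold, max_eq_left (show |u.im| ≤ |u.re| by linarith), min_eq_right (by linarith),
    min_eq_left (by linarith)]
  simp

theorem fold_lh {u : ℂ} (h : fold u = 0) : LH fold u := by
  have h1 : min 1 (max |u.re| |u.im| - 1) = 0 := by simpa [fold] using congrArg Complex.re h
  have h2 : u.im * max 0 (min 1 (3 - max |u.re| |u.im|)) = 0 := by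
    simpa [fold] using congrArg Complex.im h
  have h3 : max |u.re| |u.im| = 1 := by
    rcases min_choice 1 (max |u.re| |u.im| - 1) with h3 | h3 <;> linarith
  have h4 : u.im = 0 := by
    rw [h3] at h2
    norm_num at h2
    exact h2
  rw [h4, abs_zero, max_eq_left (abs_nonneg _)] at h3
  have e1 : ∀ᶠ z in 𝓝 u, 1 / 2 < |z.re| ∧ |z.re| < 2 ∧ |z.im| < 1 / 2 :=
    ((continuous_const.continuousAt.eventually_lt Complex.continuous_re.abs.continuousAt
      (by rw [h3]; norm_num)).and ((Complex.continuous_re.abs.continuousAt.eventually_lt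
      continuous_const.continuousAt (by rw [h3]; norm_num)).and
      (Complex.continuous_im.abs.continuousAt.eventually_lt continuous_const.continuousAt
      (by rw [h4]; norm_num))))
  rcases (abs_eq zero_le_one).1 h3 with h5 | h5
  · refine (lh_of_openEmb (Homeomorph.subRight (1 : ℂ)).isOpenEmbedding u).congr ?_
    filter_upwards [e1, continuous_const.continuousAt.eventually_lt
      Complex.continuous_re.continuousAt (show (0 : ℝ) < u.re by linarith)] with z hz hz2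
    rw [fold_near hz.1 hz.2.1 hz.2.2, abs_of_pos hz2]
    apply Complex.ext <;> simp
  · refine (lh_of_openEmb ((Complex.conjCLE.toHomeomorph.trans (Homeomorph.neg ℂ)).trans
      (Homeomorph.subRight (1 : ℂ))).isOpenEmbedding u).congr ?_
    filter_upwards [e1, Complex.continuous_re.continuousAt.eventually_lt
      continuous_const.continuousAt (show u.re < (0 : ℝ) by linarith)] with z hz hz2
    rw [fold_near hz.1 hz.2.1 hz.2.2, abs_of_neg hz2]
    apply Complex.ext <;> simp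

/-- `q` splits into two sheets off `U`. -/
def Split {S' S : Surf} (q : S'.T → S.T) (U : Set S.T) : Prop :=
  ∃ r : S'.T → ℂ, Continuous r ∧ (∀ t, q t ∉ U → r t = 1 ∨ r t = -1) ∧
    ∀ y, y ∉ U → ∃ t t', q t = y ∧ q t' = y ∧ r t ≠ r t'

open Classical in
theorem exists_split (S : Surf) {U : Set S.T} (hU : IsOpen U) (hne : U.Nonempty) :
    ∃ (S' : Surf) (q : S'.T → S.T), IsArr q ∧ Split q U := by
  obtain ⟨x, hx⟩ := hne
  obtain ⟨φ, ρ, hρ, h1, h2, h3⟩ := S.ch.oph x (hU.mem_nhds hx)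
  have hρ' : (ρ : ℂ) ≠ 0 := by exact_mod_cast hρ.ne'
  let A : ℂ ≃ₜ ℂ := (Homeomorph.subRight (φ x)).trans
    (Homeomorph.mulLeft₀ (6 / ρ : ℂ) (div_ne_zero (by norm_num) hρ'))
  have hA : ∀ z, A z = 6 / ρ * (z - φ x) := fun _ => rfl
  have hfar : ∀ z, z ∉ closedBall (φ x) ρ → fold (A z) = 1 := fun z hz => fold_far (by
    rw [mem_closedBall, dist_eq_norm, not_le] at hz
    rw [hA, norm_mul, norm_div, Complex.norm_real, Real.norm_of_nonneg hρ.le, div_mul_eq_mul_div,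
      lt_div_iff₀ hρ]
    simp [hz])
  let l : S.T → ℂ := fun y => if y ∈ φ.source then fold (A (φ y)) else 1
  have cl : Continuous l := glue φ (isCompact_closedBall _ _) h2
    (((fold_cont.comp A.continuous).comp_continuousOn φ.continuousOn).congr fun y hy => if_pos hy)
    continuous_const (fun y hy => if_neg hy) fun y hy h4 => (if_pos hy).trans (hfar _ h4)
  have reg : ∀ y, l y = 0 → LH l y := fun y hy => by
    have h4 : y ∈ φ.source := by
      by_contra h4
      simp [l, h4] at hy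
    refine (((fold_lh (u := A (φ y)) ((if_pos h4).symm.trans hy)).comp
      (lh_of_openEmb A.isOpenEmbedding _)).comp (lh_of_oph φ h4)).congr ?_
    filter_upwards [φ.open_source.mem_nhds h4] with z hz
    exact (if_pos hz).symm
  have off : ∀ y, y ∉ U → l y = 1 := fun y hy => by
    by_cases h4 : y ∈ φ.source
    · exact (if_pos h4).trans (hfar _ fun h5 => hy (φ.left_inv h4 ▸ h3 _ h5))
    · exact if_neg h4
  have hz : φ x + ρ / 6 ∈ φ.target := h2 (by
    rw [mem_closedBall, dist_eq_norm, add_sub_cancel_left, norm_div, Complex.norm_real,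
      Real.norm_of_nonneg hρ.le]
    simp
    linarith)
  have z0 : l (φ.symm (φ x + ρ / 6)) = 0 := by
    simp only [l, if_pos (φ.map_target hz), φ.right_inv hz, hA]
    rw [show (6 / ρ * (φ x + ρ / 6 - φ x) : ℂ) = 1 by field_simp; ring]
    simp [fold]
  have hP := pre_model cl reg
  have hc : CompactSpace {p : S.T × ℂ | p.2 ^ 2 = l p.1} := by
    obtain ⟨C, hC⟩ := (isCompact_range cl).isBounded.exists_norm_le
    refine isCompact_iff_compactSpace.1 ((isCompact_univ.prod (isCompact_closedBall (0 : ℂ)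
      (C + 1))).of_isClosed_subset (isClosed_eq (by fun_prop) (by fun_prop)) fun p hp => ⟨trivial, ?_⟩)
    have h4 := hC _ ⟨p.1, rfl⟩
    rw [← show p.2 ^ 2 = l p.1 from hp, norm_pow] at h4
    rw [mem_closedBall_zero_iff]
    nlinarith [norm_nonneg p.2, sq_nonneg (‖p.2‖ - 1)]
  let p0 : {p : S.T × ℂ | p.2 ^ 2 = l p.1} := ⟨(φ.symm (φ x + ρ / 6), 0), by simp [z0]⟩
  have hch := hP.ch S.ch
  have hQ : Pre (T := (compS hch p0).T) (fun t => t.1.1.1) l (fun t => t.1.1.2) :=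
    hP.sub (@isOpen_connectedComponent _ _ hch.lc p0)
  refine ⟨compS hch p0, _, hQ.arr, _, hQ.cw, fun t ht => ?_, fun y hy => ?_⟩
  · exact (sq_eq_sq_iff_eq_or_eq_neg (b := (1 : ℂ))).1 (by rw [hQ.sq, off _ ht, one_pow])
  · obtain ⟨t, rfl⟩ := hQ.surj y
    obtain ⟨t', h4, h5⟩ := hQ.opp ⟨⟨p0, mem_connectedComponent⟩, ⟨p0, mem_connectedComponent⟩,
      rfl, by simp [p0]⟩ t
    refine ⟨t, t', rfl, h4, fun h6 => ?_⟩
    have h7 := hQ.sq t
    rw [off _ hy] at h7
    have h8 : t.1.1.2 = 0 := by linear_combination (h6.trans h5) / 2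
    simp [h8] at h7

theorem Split.refine {S'' S' S : Surf} {q : S'.T → S.T} {U : Set S.T} (h : Split q U)
    {a : S''.T → S'.T} (ha : IsArr a) : Split (q ∘ a) U := by
  obtain ⟨r, h1, h2, h3⟩ := h
  refine ⟨r ∘ a, h1.comp ha.cont, fun t ht => h2 _ ht, fun y hy => ?_⟩
  obtain ⟨t, t', h4⟩ := h3 y hy
  obtain ⟨s, rfl⟩ := ha.surj t
  obtain ⟨s', rfl⟩ := ha.surj t'
  exact ⟨s, s', h4⟩

/-- Covering dimension at most `n`. -/
def DimLE (X : Type) [TopologicalSpace X] (n : ℕ) : Prop :=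
  ∀ (k : ℕ) (U : Fin k → Set X), (∀ i, IsOpen (U i)) → (⋃ i, U i) = Set.univ →
    ∃ V : Fin k → Set X, (∀ i, IsOpen (V i)) ∧ (∀ i, V i ⊆ U i) ∧ (⋃ i, V i) = Set.univ ∧
      ∀ x : X, Set.ncard {i : Fin k | x ∈ V i} ≤ n + 1

theorem bricks {δ : ℝ} (hδ : 0 < δ) : ∃ Br : ℤ × ℤ → Set ℂ, (∀ p, IsOpen (Br p)) ∧
    (∀ z, ∃ p, z ∈ Br p) ∧ (∀ p, ∀ z ∈ Br p, ∀ z' ∈ Br p, dist z z' < δ) ∧
    ∀ z, ∃ p1 p2 p3, ∀ p, z ∈ Br p → p = p1 ∨ p = p2 ∨ p = p3 := by
  refine ⟨fun p => {z | (p.1 + p.2) % 2 = 0 ∧ |z.re * (5 / δ) - p.1| < 5 / 4 ∧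
    |z.im * (5 / δ) - p.2| < 1}, fun p => ?_, fun z => ?_, fun p z hz z' hz' => ?_, fun z => ?_⟩
  · exact isOpen_const.inter ((isOpen_lt ((Complex.continuous_re.mul continuous_const).sub
      continuous_const).abs continuous_const).inter (isOpen_lt
      ((Complex.continuous_im.mul continuous_const).sub continuous_const).abs continuous_const))
  · have a1 := Int.floor_le (z.re * (5 / δ))
    have a2 := Int.lt_floor_add_one (z.re * (5 / δ))
    have a3 := Int.floor_le (z.im * (5 / δ))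
    have a4 := Int.lt_floor_add_one (z.im * (5 / δ))
    have a5 : |z.im * (5 / δ) - (⌊z.im * (5 / δ)⌋ : ℤ)| < 1 := by
      rw [abs_lt]; constructor <;> linarith
    by_cases c : (⌊z.re * (5 / δ)⌋ + ⌊z.im * (5 / δ)⌋) % 2 = 0
    · exact ⟨(⌊z.re * (5 / δ)⌋, ⌊z.im * (5 / δ)⌋), c,
        by rw [abs_lt]; dsimp only; constructor <;> linarith, a5⟩
    · exact ⟨(⌊z.re * (5 / δ)⌋ + 1, ⌊z.im * (5 / δ)⌋), by dsimp only; omega,
        by rw [abs_lt]; push_cast; constructor <;> linarith, a5⟩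
  · obtain ⟨-, a1, a2⟩ := hz
    obtain ⟨-, a3, a4⟩ := hz'
    rw [abs_lt] at a1 a2 a3 a4
    have a5 : |(z - z').re| * (5 / δ) < 5 / 2 := by
      rw [← abs_of_pos (show 0 < 5 / δ by positivity), ← abs_mul, Complex.sub_re, sub_mul, abs_lt]
      constructor <;> linarith [a1.1, a1.2, a3.1, a3.2]
    have a6 : |(z - z').im| * (5 / δ) < 5 / 2 := by
      rw [← abs_of_pos (show 0 < 5 / δ by positivity), ← abs_mul, Complex.sub_im, sub_mul, abs_lt]
      constructor <;> linarith [a2.1, a2.2, a4.1, a4.2]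
    rw [← mul_div_assoc, div_lt_iff₀ hδ] at a5 a6
    have := Complex.norm_le_abs_re_add_abs_im (z - z')
    rw [dist_eq_norm]
    linarith
  · set F := ⌊z.re * (5 / δ) + 5 / 4⌋
    set g := ⌊z.im * (5 / δ)⌋
    refine ⟨(F - 2, g + (F - 2 + g) % 2), (F - 1, g + (F - 1 + g) % 2), (F, g + (F + g) % 2), ?_⟩
    rintro ⟨c, b⟩ ⟨a0, a1, a2⟩
    rw [abs_lt] at a1 a2
    simp only at a0 a1 a2
    have a3 : c ≤ F := Int.le_floor.2 (by linarith [a1.1])
    have a4 : (F : ℝ) ≤ z.re * (5 / δ) + 5 / 4 := Int.floor_le _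
    have a5 : F < c + 3 := by exact_mod_cast (show (F : ℝ) < c + 3 by linarith [a1.2])
    have a6 : (g : ℝ) ≤ z.im * (5 / δ) := Int.floor_le _
    have a7 : z.im * (5 / δ) < g + 1 := Int.lt_floor_add_one _
    have a8 : g < b + 1 := by exact_mod_cast (show (g : ℝ) < b + 1 by linarith [a2.2])
    have a9 : b < g + 2 := by exact_mod_cast (show (b : ℝ) < g + 2 by linarith [a2.1])
    simp only [Prod.mk.injEq]
    omega

theorem dim_step {T : Type} [TopologicalSpace T] [T2Space T] (φ : OpenPartialHomeomorph T ℂ)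
    {F : Set T} (hF : IsCompact F) (hs : F ⊆ φ.source) {k : ℕ} (i0 : Fin k) (U : Fin k → Set T)
    (hU : ∀ i, IsOpen (U i)) (hc : (⋃ i, U i) = univ) :
    ∃ V : Fin k → Set T, (∀ i, IsOpen (V i)) ∧ (∀ i, V i ⊆ U i) ∧ (⋃ i, V i) = univ ∧
      ∀ x ∈ F, ncard {i : Fin k | x ∈ V i} ≤ 2 + 1 := by
  obtain ⟨δ, hδ, h1⟩ := lebesgue_number_lemma_of_metric
    (hF.image_of_continuousOn (φ.continuousOn.mono hs))
    (c := fun i => φ.target ∩ φ.symm ⁻¹' U i) (fun i => φ.isOpen_inter_preimage_symm (hU i)) (by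
      rintro _ ⟨x, hx, rfl⟩
      obtain ⟨i, hi⟩ := mem_iUnion.1 (hc ▸ mem_univ x)
      exact mem_iUnion.2 ⟨i, φ.map_source (hs hx), by rwa [mem_preimage, φ.left_inv (hs hx)]⟩)
  obtain ⟨Br, b1, b2, b3, b4⟩ := bricks hδ
  have h2 : ∀ p, ∃ i, ∀ x ∈ F, φ x ∈ Br p → x ∈ U i := fun p => by
    by_cases h : ∃ x ∈ F, φ x ∈ Br p
    · obtain ⟨x0, hx0, h3⟩ := h
      obtain ⟨i, hi⟩ := h1 _ ⟨x0, hx0, rfl⟩
      exact ⟨i, fun x hx h4 => φ.left_inv (hs hx) ▸ (hi (b3 p _ h4 _ h3)).2⟩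
    · exact ⟨i0, fun x hx h4 => absurd ⟨x, hx, h4⟩ h⟩
  choose lab hlab using h2
  refine ⟨fun i => U i ∩ (Fᶜ ∪ (φ.source ∩ φ ⁻¹' ⋃ p, ⋃ _ : lab p = i, Br p)), fun i => (hU i).inter
    (hF.isClosed.isOpen_compl.union (φ.isOpen_inter_preimage (isOpen_iUnion fun p =>
      isOpen_iUnion fun _ => b1 p))), fun i => inter_subset_left,
    eq_univ_of_forall fun x => ?_, fun x hx => ?_⟩
  · by_cases hx : x ∈ F
    · obtain ⟨p, hp⟩ := b2 (φ x)
      exact mem_iUnion.2 ⟨lab p, hlab p x hx hp, Or.inr ⟨hs hx, mem_iUnion₂.2 ⟨p, rfl, hp⟩⟩⟩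
    · obtain ⟨i, hi⟩ := mem_iUnion.1 (hc ▸ mem_univ x)
      exact mem_iUnion.2 ⟨i, hi, Or.inl hx⟩
  · obtain ⟨p1, p2, p3, h3⟩ := b4 (φ x)
    refine (ncard_le_ncard (t := {lab p1, lab p2, lab p3}) (fun i hi => ?_)).trans ?_
    · obtain ⟨p, rfl, hp⟩ := mem_iUnion₂.1 (hi.2.resolve_left fun h => h hx).2
      rcases h3 p hp with rfl | rfl | rfl <;> simp
    · refine (ncard_insert_le _ _).trans (Nat.succ_le_succ ((ncard_insert_le _ _).trans ?_))
      rw [ncard_singleton]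

theorem Surf.dim (S : Surf) : DimLE S.T 2 := fun k U hU hc => by
  obtain ⟨x0⟩ : Nonempty S.T := inferInstance
  obtain ⟨i0, -⟩ := mem_iUnion.1 (hc ▸ mem_univ x0)
  have h1 : ∀ x : S.T, ∃ (φ : OpenPartialHomeomorph S.T ℂ) (F : Set S.T), F ∈ 𝓝 x ∧ IsCompact F ∧
      F ⊆ φ.source := fun x => by
    obtain ⟨f, hf⟩ := S.ch x
    obtain ⟨φ, hx⟩ := hf.oph
    obtain ⟨F, h1, h2, h3⟩ := local_compact_nhds (φ.open_source.mem_nhds hx)
    exact ⟨φ, F, h1, h3, h2⟩
  choose φ F f1 f2 f3 using h1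
  obtain ⟨s, -, hs⟩ := isCompact_univ.elim_nhds_subcover F fun x _ => f1 x
  have h2 : ∃ V : Fin k → Set S.T, (∀ i, IsOpen (V i)) ∧ (∀ i, V i ⊆ U i) ∧ (⋃ i, V i) = univ ∧
      ∀ y ∈ s, ∀ x ∈ F y, ncard {i : Fin k | x ∈ V i} ≤ 2 + 1 := by
    clear hs
    classical
    induction s using Finset.induction_on with
    | empty => exact ⟨U, hU, fun _ => Subset.rfl, hc, fun _ h => absurd h (Finset.notMem_empty _)⟩
    | insert y s _ ih =>
      obtain ⟨V, v1, v2, v3, v4⟩ := ih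
      obtain ⟨W, w1, w2, w3, w4⟩ := dim_step (φ y) (f2 y) (f3 y) i0 V v1 v3
      refine ⟨W, w1, fun i => (w2 i).trans (v2 i), w3, fun y' hy' x hx => ?_⟩
      rcases Finset.mem_insert.1 hy' with rfl | hy'
      · exact w4 x hx
      · exact (ncard_le_ncard fun i hi => w2 i hi).trans (v4 y' hy' x hx)
  obtain ⟨V, v1, v2, v3, v4⟩ := h2
  refine ⟨V, v1, v2, v3, fun x => ?_⟩
  obtain ⟨y, hy, hx⟩ := mem_iUnion₂.1 (hs (mem_univ x))
  exact v4 y hy x hx

end Pool.Agent.Lib.MP_11d477_gt.Ind
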